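import Pool.Agent.H300.PH.Defs

set_option autoImplicit false

open Set Topology unitInterval

namespace Pool.Agent.H300.PH

theorem approx_kz_step (K : ℝ → ℝ) (ε : ℝ) (hε : 0 < ε) (n : ℕ) (hn : 0 < n) (hK0 : ∀ x, 0 ≤ K x)
    (hK : ∀ x y : ℝ, |x - y| ≤ 1 / n → |K x - K y| ≤ ε / 4) (m : ℕ) :
    ∀ j : ℕ, j + m = n → ∃ (l : List ℝ) (r : ℝ → ℝ), Continuous r ∧ (∀ c ∈ l, 0 ≤ c) ∧
      r 0 = (j : ℝ) / n ∧ r l.sum = 1 ∧
      ∀ u ∈ Icc 0 l.sum, 0 ≤ K ((j : ℝ) / n) + kz l u ∧
        |K (r u) - (K ((j : ℝ) / n) + kz l u)| ≤ ε := by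
  have hn' : (0 : ℝ) < n := by exact_mod_cast hn
  induction m with
  | zero =>
    intro j hj
    have hjn : j = n := by omega
    subst hjn
    refine ⟨[], fun _ => 1, continuous_const, by simp, by simp [div_self hn'.ne'], rfl, ?_⟩
    intro u _
    have h1 : (j : ℝ) / j = 1 := div_self hn'.ne'
    simp only [kz, h1, add_zero, sub_self, abs_zero]
    exact ⟨hK0 1, hε.le⟩
  | succ m ih =>
    intro j hj
    obtain ⟨l', r', hr', hl', hr0, hr1, hmain⟩ := ih (j + 1) (by omega)
    obtain ⟨d, hd⟩ : ∃ d, d = K (((j + 1 : ℕ) : ℝ) / n) - K ((j : ℝ) / n) := ⟨_, rfl⟩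
    have hdabs : |d| ≤ ε / 4 := by
      rw [hd]
      apply hK
      push_cast
      rw [add_div, add_sub_cancel_left, abs_of_pos (by positivity)]
    obtain ⟨hd1, hd2⟩ := abs_le.mp hdabs
    obtain ⟨η, hη⟩ : ∃ η, η = ε / 4 := ⟨_, rfl⟩
    have hηpos : 0 < η := by rw [hη]; linarith
    obtain ⟨a, ha⟩ : ∃ a, a = max d 0 + η := ⟨_, rfl⟩
    obtain ⟨b, hb⟩ : ∃ b, b = max (-d) 0 + η := ⟨_, rfl⟩
    have hapos : 0 < a := by rw [ha]; have := le_max_right d 0; linarith
    have hbpos : 0 < b := by rw [hb]; have := le_max_right (-d) 0; linarith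
    have hab : a - b = d := by
      rw [ha, hb]
      rcases le_total d 0 with h | h
      · rw [max_eq_right h, max_eq_left (by linarith)]; ring
      · rw [max_eq_left h, max_eq_right (by linarith)]; ring
    have hale : a ≤ ε / 2 := by
      rw [ha, hη]
      have : max d 0 ≤ ε / 4 := max_le hd2 (by linarith)
      linarith
    obtain ⟨t, ht⟩ : ∃ t, t = a + b := ⟨_, rfl⟩
    have htpos : 0 < t := by rw [ht]; linarith
    have hsum' : 0 ≤ l'.sum := List.sum_nonneg hl'
    have hsum : (a :: b :: l').sum = t + l'.sum := by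
      rw [List.sum_cons, List.sum_cons, ht]; ring
    refine ⟨a :: b :: l', fun u => if u ≤ t then (j : ℝ) / n + (1 / n) * (max u 0 / t) else r' (u - t),
      ?_, ?_, ?_, ?_, ?_⟩
    · refine Continuous.if_le (by fun_prop) (by fun_prop) continuous_id continuous_const ?_
      intro u hu
      rw [hu, sub_self, hr0, max_eq_left htpos.le, div_self htpos.ne']
      push_cast
      ring
    · intro c hc
      simp only [List.mem_cons] at hc
      rcases hc with rfl | rfl | hc
      · exact hapos.le
      · exact hbpos.le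
      · exact hl' c hc
    · simp only [htpos.le, if_true, max_self, zero_div, mul_zero, add_zero]
    · simp only [hsum]
      by_cases h : t + l'.sum ≤ t
      · have h0 : l'.sum = 0 := by linarith
        rw [if_pos h, h0, add_zero, max_eq_left htpos.le, div_self htpos.ne']
        rw [h0, hr0] at hr1
        have h5 : (((j + 1 : ℕ) : ℝ)) / n = (j : ℝ) / n + 1 / n * 1 := by
          push_cast
          ring
        rw [← h5, hr1]
      · rw [if_neg h, add_sub_cancel_left, hr1]
    · intro u hu
      rw [hsum] at hu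
      obtain ⟨hu0, hu1⟩ := hu
      by_cases hut : u ≤ t
      · simp only [if_pos hut]
        have hr : |K ((j : ℝ) / n + (1 / n) * (max u 0 / t)) - K ((j : ℝ) / n)| ≤ ε / 4 := by
          apply hK
          rw [add_sub_cancel_left, max_eq_left hu0, abs_of_nonneg (by positivity)]
          have : u / t ≤ 1 := (div_le_one htpos).mpr hut
          have h3 : (0 : ℝ) ≤ 1 / n := by positivity
          nlinarith
        obtain ⟨hr1', hr2'⟩ := abs_le.mp hr
        by_cases hua : u ≤ a
        · have hk : kz (a :: b :: l') u = u := by simp [kz, hua]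
          rw [hk]
          refine ⟨by have := hK0 ((j : ℝ) / n); linarith, ?_⟩
          rw [abs_le]
          constructor <;> linarith
        · have hub : u - a ≤ b := by linarith
          have hk : kz (a :: b :: l') u = a - (u - a) := by
            simp [kz, hua]
            intro h
            linarith
          rw [hk]
          have hlow : d ≤ a - (u - a) := by linarith
          have hup : a - (u - a) ≤ a := by linarith
          refine ⟨?_, ?_⟩
          · have := hK0 (((j + 1 : ℕ) : ℝ) / n)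
            linarith
          · rw [abs_le]
            constructor <;> linarith
      · simp only [if_neg hut]
        push Not at hut
        have hua : ¬ u ≤ a := by linarith
        have hub : ¬ u - a ≤ b := by linarith
        have hk : kz (a :: b :: l') u = d + kz l' (u - t) := by
          have : kz (a :: b :: l') u = a - (b - kz l' (u - a - b)) := by
            simp only [kz, if_neg hua, if_neg hub]
          rw [this]
          have h4 : u - a - b = u - t := by linarith
          rw [h4]
          linarith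
        have hkk : K ((j : ℝ) / n) + kz (a :: b :: l') u =
            K (((j + 1 : ℕ) : ℝ) / n) + kz l' (u - t) := by
          rw [hk, hd]; ring
        rw [hkk]
        exact hmain (u - t) ⟨by linarith, by linarith⟩

/-- TARGET: every surjection `k` of the interval with `k 0 = 0` is, up to `ε` and a monotone
change of parameter `r`, a zigzag. -/
theorem approx_kz (k : C(I, I)) (hk0 : k 0 = 0) {ε : ℝ} (hε : 0 < ε) :
    ∃ (l : List ℝ) (r : C(ℝ, I)), (∀ c ∈ l, 0 ≤ c) ∧ (∀ u ∈ Icc 0 l.sum, 0 ≤ kz l u) ∧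
      r 0 = 0 ∧ r l.sum = 1 ∧ ∀ u ∈ Icc 0 l.sum, |(k (r u) : ℝ) - kz l u| ≤ ε := by
  have huc : UniformContinuous k := CompactSpace.uniformContinuous_of_continuous k.continuous
  obtain ⟨δ, hδ, hδ'⟩ := Metric.uniformContinuous_iff.mp huc (ε / 4) (by linarith)
  obtain ⟨n, hn⟩ := exists_nat_gt (1 / δ)
  have hnpos : (0 : ℝ) < n := lt_trans (by positivity) hn
  have hn0 : 0 < n := by exact_mod_cast hnpos
  have hnδ : 1 / (n : ℝ) < δ := by
    rw [div_lt_iff₀ hnpos]
    rw [div_lt_iff₀ hδ] at hn
    linarith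
  let K : ℝ → ℝ := fun x => (k (projIcc 0 1 zero_le_one x) : ℝ)
  have hK0 : ∀ x, 0 ≤ K x := fun x => (k (projIcc 0 1 zero_le_one x)).2.1
  have hK : ∀ x y : ℝ, |x - y| ≤ 1 / n → |K x - K y| ≤ ε / 4 := by
    intro x y hxy
    have h1 : dist (projIcc (0 : ℝ) 1 zero_le_one x) (projIcc 0 1 zero_le_one y) < δ := by
      rw [Subtype.dist_eq, Real.dist_eq]
      exact lt_of_le_of_lt ((abs_projIcc_sub_projIcc zero_le_one).trans hxy) hnδ
    have h2 := hδ' h1
    rw [Subtype.dist_eq, Real.dist_eq] at h2
    exact h2.le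
  obtain ⟨l, r, hrc, hl, hr0, hr1, hmain⟩ := approx_kz_step K ε hε n hn0 hK0 hK n 0 (by omega)
  have hv0 : K (((0 : ℕ) : ℝ) / n) = 0 := by
    have : projIcc (0 : ℝ) 1 zero_le_one (((0 : ℕ) : ℝ) / n) = 0 := by
      simp
    change (k (projIcc (0 : ℝ) 1 zero_le_one (((0 : ℕ) : ℝ) / n)) : ℝ) = 0
    rw [this, hk0]
    rfl
  refine ⟨l, ⟨fun u => projIcc 0 1 zero_le_one (r u), continuous_projIcc.comp hrc⟩, hl, ?_, ?_, ?_, ?_⟩
  · intro u hu
    have := (hmain u hu).1
    rw [hv0] at this
    linarith
  · simp [hr0]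
  · simp [hr1]
  · intro u hu
    have := (hmain u hu).2
    rw [hv0, zero_add] at this
    exact this

end Pool.Agent.H300.PH
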