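import Pool.Agent.H300.PH.LK
import Pool.Agent.H300.PH.AK

set_option autoImplicit false

open Set Topology unitInterval

namespace Pool.Agent.H300.PH

/-- TARGET (A): lifting through an arbitrary surjection of the interval -/
theorem liftA {X : Type} [TopologicalSpace X] [CompactSpace X] [T2Space X] [ConnectedSpace X]
    (hX : HI X) {x : X} (φ : C(X, I)) (hφx : φ x = 0) (hφ : Function.Surjective φ)
    (k : C(I, I)) (hk0 : k 0 = 0) (hk : Function.Surjective k) {ε : ℝ} (hε : 0 < ε) :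
    ∃ ψ : C(X, I), ψ x = 0 ∧ Function.Surjective ψ ∧ ∀ p, |(k (ψ p) : ℝ) - φ p| ≤ ε := by
  set e : ℝ := min (ε / 4) (1 / 4) with he_def
  have he : 0 < e := lt_min (by linarith) (by norm_num)
  have he1 : e ≤ ε / 4 := min_le_left _ _
  have he2 : e ≤ 1 / 4 := min_le_right _ _
  obtain ⟨l, r, hl, hnn, hr0, hrT, hkr⟩ := approx_kz k hk0 he
  set T : ℝ := l.sum with hT_def
  have hT0 : 0 ≤ T := List.sum_nonneg hl
  have hlip := kz_lip l hl
  have hg0 := kz_zero l hl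
  have hgc : ContinuousOn (kz l) (Icc 0 T) := by
    rw [Metric.continuousOn_iff]
    intro b hb δ hδ
    refine ⟨δ, hδ, fun a ha hab => ?_⟩
    rw [Real.dist_eq] at hab ⊢
    exact lt_of_le_of_lt (hlip a b ha.1 hb.1) hab
  obtain ⟨u0, hu0, hmax⟩ := isCompact_Icc.exists_isMaxOn (nonempty_Icc.mpr hT0) hgc
  set M : ℝ := kz l u0 with hM_def
  have hmax' : ∀ u ∈ Icc 0 T, kz l u ≤ M := fun u hu => hmax hu
  have himg : kz l '' Icc 0 T = Icc 0 M := by
    apply Subset.antisymm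
    · rintro _ ⟨u, hu, rfl⟩
      exact ⟨hnn u hu, hmax' u hu⟩
    · intro y hy
      have hsub : Icc (0 : ℝ) u0 ⊆ Icc 0 T := Icc_subset_Icc le_rfl hu0.2
      have hivt := intermediate_value_Icc hu0.1 (hgc.mono hsub)
      rw [hg0] at hivt
      obtain ⟨u, hu, huy⟩ := hivt hy
      exact ⟨u, hsub hu, huy⟩
  have hrsurj : ∀ s : I, ∃ u ∈ Icc (0 : ℝ) T, r u = s := by
    intro s
    have hc : ContinuousOn (fun u : ℝ => ((r u : I) : ℝ)) (Icc 0 T) :=
      (continuous_subtype_val.comp r.continuous).continuousOn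
    have hivt := intermediate_value_Icc hT0 hc
    have hs : (s : ℝ) ∈ Icc ((r 0 : I) : ℝ) ((r T : I) : ℝ) := by
      rw [hr0, hrT]
      exact ⟨s.2.1, s.2.2⟩
    obtain ⟨u, hu, hus⟩ := hivt hs
    exact ⟨u, hu, Subtype.ext hus⟩
  have hM1 : M ≤ 1 + e := by
    have h1 := hkr u0 hu0
    have h2 := (abs_le.mp h1).1
    have h3 : ((k (r u0) : I) : ℝ) ≤ 1 := (k (r u0)).2.2
    linarith
  have hM2 : 1 - e ≤ M := by
    obtain ⟨s, hs⟩ := hk 1
    obtain ⟨u, hu, hus⟩ := hrsurj s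
    have h1 := (abs_le.mp (hkr u hu)).2
    have h2 := hmax' u hu
    rw [hus, hs] at h1
    have h3 : ((1 : I) : ℝ) = 1 := rfl
    rw [h3] at h1
    linarith
  have hMpos : 0 < M := by linarith
  let φ1 : C(X, ℝ) := ⟨fun p => M * (φ p : ℝ), by fun_prop⟩
  have hφ1x : φ1 x = 0 := by
    show M * (φ x : ℝ) = 0
    rw [hφx]
    simp
  have hφ1r : range φ1 = kz l '' Icc 0 T := by
    rw [himg]
    apply Subset.antisymm
    · rintro _ ⟨p, rfl⟩
      have h1 : 0 ≤ (φ p : ℝ) := (φ p).2.1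
      have h2 : (φ p : ℝ) ≤ 1 := (φ p).2.2
      refine ⟨?_, ?_⟩
      · show 0 ≤ M * (φ p : ℝ)
        positivity
      · show M * (φ p : ℝ) ≤ M
        nlinarith
    · intro y hy
      have hmem : y / M ∈ I := ⟨div_nonneg hy.1 hMpos.le, (div_le_one hMpos).mpr hy.2⟩
      obtain ⟨p, hp⟩ := hφ ⟨y / M, hmem⟩
      refine ⟨p, ?_⟩
      show M * (φ p : ℝ) = y
      rw [hp]
      show M * (y / M) = y
      field_simp
  obtain ⟨ψ1, hψ1x, hψ1r, hψ1⟩ := lift_kz hX (x := x) l.length l le_rfl hl hnn φ1 hφ1x hφ1r e he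
  refine ⟨r.comp ψ1, ?_, ?_, ?_⟩
  · show r (ψ1 x) = 0
    rw [hψ1x, hr0]
  · intro s
    obtain ⟨u, hu, hus⟩ := hrsurj s
    have hu' : u ∈ range ψ1 := by
      rw [hψ1r]
      exact hu
    obtain ⟨p, hp⟩ := hu'
    refine ⟨p, ?_⟩
    show r (ψ1 p) = s
    rw [hp, hus]
  · intro p
    show |((k (r (ψ1 p)) : I) : ℝ) - φ p| ≤ ε
    have hmem : ψ1 p ∈ Icc 0 T := by
      have : ψ1 p ∈ range ψ1 := ⟨p, rfl⟩
      rw [hψ1r] at this
      exact this
    have h1 := abs_le.mp (hkr (ψ1 p) hmem)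
    have h2 : |kz l (ψ1 p) - M * (φ p : ℝ)| ≤ e := hψ1 p
    have h2' := abs_le.mp h2
    have h3 : 0 ≤ (φ p : ℝ) := (φ p).2.1
    have h4 : (φ p : ℝ) ≤ 1 := (φ p).2.2
    have h5 : M * (φ p : ℝ) - φ p ≤ e := by nlinarith
    have h6 : -e ≤ M * (φ p : ℝ) - φ p := by nlinarith
    rw [abs_le]
    constructor <;> linarith [h1.1, h1.2, h2'.1, h2'.2]

end Pool.Agent.H300.PH
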