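import Mathlib

set_option autoImplicit false

open Set Topology unitInterval

namespace Pool.Agent.H300.PH

/-- hereditarily indecomposable: intersecting subcontinua are nested -/
def HI (X : Type) [TopologicalSpace X] : Prop :=
  ∀ C D : Set X, IsClosed C → IsClosed D → IsPreconnected C → IsPreconnected D →
    (C ∩ D).Nonempty → C ⊆ D ∨ D ⊆ C

/-- the N-fold: up to `b`, down to `a`, up again (unit speed) -/
noncomputable def nf (a b u : ℝ) : ℝ :=
  if u ≤ b then u else if u ≤ 2 * b - a then 2 * b - u else u - 2 * (b - a)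

/-- the end fold: up to `b`, then down -/
noncomputable def ef (b u : ℝ) : ℝ := if u ≤ b then u else 2 * b - u

/-- the zigzag with run lengths `l` (the first run goes up), unit speed -/
noncomputable def kz : List ℝ → ℝ → ℝ
  | [], _ => 0
  | c :: l, u => if u ≤ c then u else c - kz l (u - c)

/-- partial unfolding of `φ` on `N`, starting at `x`, ending over the value `e` -/
def Good {X : Type} [TopologicalSpace X] (φ : X → ℝ) (x : X) (N : Set X) (d e : ℝ) : Prop :=
  ∃ (ψ : X → ℝ) (s : ℝ → ℝ) (L : ℝ), ContinuousOn ψ N ∧ ψ x = 0 ∧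
    (∀ p ∈ N, 0 ≤ ψ p ∧ ψ p ≤ L) ∧ (∀ p ∈ N, φ p = e → ψ p = L) ∧
    (∀ p ∈ N, |s (ψ p) - φ p| ≤ d) ∧ s L = e

/-- unfoldings ending at the right end exist for all relatively clopen `N` missing the left end -/
def PR {X : Type} [TopologicalSpace X] (φ : X → ℝ) (x : X) (d a b : ℝ) : Prop :=
  ∀ N : Set X, IsClosed N → N ⊆ φ ⁻¹' Icc a b → IsClosed ((φ ⁻¹' Icc a b) \ N) → x ∈ N →
    (∀ p ∈ N, φ p ≠ a) → Good φ x N d b

/-- fine end maps at `x` -/
def Fine (X : Type) [MetricSpace X] (x : X) : Prop :=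
  ∀ ε : ℝ, 0 < ε → ∃ φ : C(X, I), φ x = 0 ∧ Function.Surjective φ ∧
    ∀ p q, φ p = φ q → dist p q < ε

/-- lifting property at `x` -/
def Lift (X : Type) [MetricSpace X] (x : X) : Prop :=
  ∀ (φ : C(X, I)) (k : C(I, I)), φ x = 0 → Function.Surjective φ → k 0 = 0 →
    Function.Surjective k → ∀ ε : ℝ, 0 < ε →
    ∃ ψ : C(X, I), ψ x = 0 ∧ Function.Surjective ψ ∧ ∀ p, |(k (ψ p) : ℝ) - φ p| ≤ ε

end Pool.Agent.H300.PH
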