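import Pool.Agent.H300.PH.EM

set_option autoImplicit false

open Set Topology unitInterval

namespace Pool.Agent.H300.PH

/-- TARGET -/
theorem fine_of_chainable {X : Type} [MetricSpace X] [CompactSpace X] [ConnectedSpace X]
    [Nontrivial X] (hX : HI X)
    (hc : ∀ ε : ℝ, 0 < ε → ∃ φ : C(X, ℝ), ∀ p q, φ p = φ q → dist p q < ε) (x : X) :
    Fine X x := by
  intro ε hε
  obtain ⟨u, v, huv⟩ := exists_pair_ne X
  have huv' : 0 < dist u v := dist_pos.2 huv
  set ε1 := min ε (dist u v) with hε1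
  have hε1pos : 0 < ε1 := lt_min hε huv'
  obtain ⟨φ, hφ⟩ := hc ε1 hε1pos
  -- compactness
  let K : Set (X × X) := {p | ε1 ≤ dist p.1 p.2}
  have hKc : IsCompact K := (isClosed_le continuous_const (by fun_prop)).isCompact
  have hKne : K.Nonempty := ⟨(u, v), (min_le_right ε (dist u v) : ε1 ≤ dist u v)⟩
  obtain ⟨⟨p0, q0⟩, hpq0, hmin⟩ := hKc.exists_isMinOn hKne
    (f := fun p : X × X => |φ p.1 - φ p.2|) (by fun_prop)
  set m := |φ p0 - φ q0| with hm
  have hmpos : 0 < m := by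
    rw [hm, abs_pos, sub_ne_zero]
    intro h
    have h1 := hφ p0 q0 h
    have h2 : ε1 ≤ dist p0 q0 := hpq0
    linarith
  have hη : ∀ p q, |φ p - φ q| ≤ m / 2 → dist p q < ε1 := by
    intro p q hpq
    by_contra hcon
    rw [not_lt] at hcon
    have h1 : m ≤ |φ p - φ q| := isMinOn_iff.1 hmin (p, q) hcon
    linarith
  obtain ⟨ψ, s, hψx, hψ0, hψs⟩ := endpoint hX x φ (d := m / 4) (by positivity)
  have hψ : ∀ p q, ψ p = ψ q → dist p q < ε1 := by
    intro p q hpq
    apply hη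
    have h1 := abs_le.1 (hψs p)
    have h2 := abs_le.1 (hψs q)
    rw [hpq] at h1
    rw [abs_le]
    constructor <;> linarith [h1.1, h1.2, h2.1, h2.2]
  obtain ⟨z, -, hz⟩ := isCompact_univ.exists_isMaxOn (univ_nonempty (α := X))
    ψ.continuous.continuousOn
  have hz' : ∀ p, ψ p ≤ ψ z := fun p => isMaxOn_iff.1 hz p (mem_univ p)
  have hM : 0 < ψ z := by
    rcases (hψ0 z).eq_or_lt with h | h
    · exfalso
      have h1 : ∀ p, ψ p = 0 := fun p => le_antisymm (by rw [h]; exact hz' p) (hψ0 p)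
      have h2 := hψ u v (by rw [h1, h1])
      have h3 : ε1 ≤ dist u v := min_le_right _ _
      linarith
    · exact h
  refine ⟨⟨fun p => ⟨ψ p / ψ z, div_nonneg (hψ0 p) hM.le, (div_le_one hM).2 (hz' p)⟩,
    Continuous.subtype_mk (ψ.continuous.div_const _) _⟩, ?_, ?_, ?_⟩
  · apply Subtype.ext
    show ψ x / ψ z = 0
    rw [hψx, zero_div]
  · intro t
    have h1 : (t : ℝ) * ψ z ∈ range ψ := mem_range_of_exists_le_of_exists_ge ψ.continuous
      ⟨x, by rw [hψx]; exact mul_nonneg t.2.1 hM.le⟩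
      ⟨z, mul_le_of_le_one_left hM.le t.2.2⟩
    obtain ⟨p, hp⟩ := h1
    refine ⟨p, Subtype.ext ?_⟩
    show ψ p / ψ z = t
    rw [hp, mul_div_cancel_right₀ _ hM.ne']
  · intro p q hpq
    have h1 : ψ p / ψ z = ψ q / ψ z := congrArg Subtype.val hpq
    have h2 : ψ p = ψ q := (div_left_inj' hM.ne').1 h1
    exact (hψ p q h2).trans_le (min_le_left _ _)

end Pool.Agent.H300.PH
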