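import Pool.Agent.H300.PH.N

set_option autoImplicit false

open Set Topology unitInterval

namespace Pool.Agent.H300.PH

theorem efold_ef (b u : ℝ) : ef b u = b - |u - b| := by
  unfold ef
  split_ifs with h
  · rw [abs_of_nonpos (by linarith)]; ring
  · rw [abs_of_nonneg (by linarith)]; ring

theorem efold_lip (b u v : ℝ) : |ef b u - ef b v| ≤ |u - v| := by
  rw [efold_ef, efold_ef]
  have h := abs_abs_sub_abs_le_abs_sub (v - b) (u - b)
  have e1 : b - |u - b| - (b - |v - b|) = |v - b| - |u - b| := by ring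
  have e2 : v - b - (u - b) = v - u := by ring
  rw [e1]
  rw [e2, abs_sub_comm v u] at h
  exact h

/-- TARGET: lifting through an end fold -/
theorem efold {X : Type} [TopologicalSpace X] [CompactSpace X] [T2Space X] [ConnectedSpace X]
    (hX : HI X) {x : X} {b q : ℝ} (hq : 0 < q) (hqb : q ≤ b) (φ : C(X, ℝ))
    (hx : φ x = 0) (hr : range φ = Icc 0 b) {ε : ℝ} (hε : 0 < ε) :
    ∃ ψ : C(X, ℝ), ψ x = 0 ∧ range ψ = Icc 0 (b + q) ∧ ∀ p, |ef b (ψ p) - φ p| ≤ ε := by
  classical
  obtain ⟨e, he, he1, he2⟩ : ∃ e : ℝ, 0 < e ∧ 20 * e ≤ ε ∧ 6 * e < q := by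
    refine ⟨min (ε / 20) (q / 7), lt_min (by linarith) (by linarith), ?_, ?_⟩
    · have := min_le_left (ε / 20) (q / 7)
      linarith
    · have := min_le_right (ε / 20) (q / 7)
      linarith
  have hr0 : ∀ p, 0 ≤ φ p ∧ φ p ≤ b := by
    intro p
    have : φ p ∈ range φ := ⟨p, rfl⟩
    rw [hr] at this
    exact this
  obtain ⟨y, hy⟩ : ∃ y, φ y = b := by
    have : b ∈ range φ := by rw [hr]; exact ⟨by linarith, le_rfl⟩
    exact this
  obtain ⟨X0, X1, X2, h0, h1, h2, hcov, hA0, hB2, h02, h01V, h12U⟩ :=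
    sepN hX (A := {p | φ p ≤ b - q}) (B := {p | b - e ≤ φ p}) (U := {p | φ p < b - q + e})
      (V := {p | b - 2 * e < φ p})
      (isClosed_le φ.continuous continuous_const) (isClosed_le continuous_const φ.continuous)
      (by
        rw [Set.disjoint_left]
        intro p hp hp'
        simp only [Set.mem_ofPred_eq] at hp hp'
        linarith)
      (isOpen_lt φ.continuous continuous_const) (isOpen_lt continuous_const φ.continuous)
      (by
        intro p hp
        simp only [Set.mem_ofPred_eq] at hp ⊢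
        linarith)
      (by
        intro p hp
        simp only [Set.mem_ofPred_eq] at hp ⊢
        linarith)
  have hn02 : ∀ p, p ∈ X0 → p ∉ X2 := by
    intro p hp hp'
    have : p ∈ X0 ∩ X2 := ⟨hp, hp'⟩
    rw [h02] at this
    exact this
  have hX0 : ∀ p ∈ X0, φ p < b - e := by
    intro p hp
    by_contra hcon
    exact hn02 p hp (hB2 (show b - e ≤ φ p from not_lt.1 hcon))
  have hX01 : ∀ p ∈ X0, p ∈ X1 ∪ X2 → b - 2 * e < φ p := by
    intro p hp hp'
    rcases hp' with hp' | hp'
    · exact h01V ⟨hp, hp'⟩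
    · exact absurd hp' (hn02 p hp)
  have hX12 : ∀ p ∈ X1 ∪ X2, b - q < φ p := by
    intro p hp
    by_cases hp0 : p ∈ X0
    · have := hX01 p hp0 hp
      linarith
    · by_contra hcon
      exact hp0 (hA0 (show φ p ≤ b - q from not_lt.1 hcon))
  have hxX0 : x ∈ X0 := hA0 (show φ x ≤ b - q by rw [hx]; linarith)
  have hyX2 : y ∈ X2 := hB2 (show b - e ≤ φ y by rw [hy]; linarith)
  -- the two pieces
  set P0 : X → ℝ := fun p => min (φ p) (b - 2 * e) with hP0
  set P1 : X → ℝ := fun p => 2 * (b - 2 * e) - max (b - q + e) (min (φ p) (b - 2 * e)) with hP1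
  have hP0c : Continuous P0 := φ.continuous.min continuous_const
  have hP1c : Continuous P1 :=
    continuous_const.sub (continuous_const.max (φ.continuous.min continuous_const))
  set ψ0 : X → ℝ := fun p => if p ∈ X0 then P0 p else P1 p with hψ0
  have hE0 : ∀ p ∈ X0, ψ0 p = P0 p := fun p hp => if_pos hp
  have hE1 : ∀ p ∈ X1 ∪ X2, ψ0 p = P1 p := by
    intro p hp
    by_cases hp0 : p ∈ X0
    · rw [hE0 p hp0]
      have h3 := hX01 p hp0 hp
      simp only [hP0, hP1]
      rw [min_eq_right h3.le, max_eq_right (by linarith)]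
      ring
    · exact if_neg hp0
  have hcov' : X0 ∪ (X1 ∪ X2) = univ := by rw [← Set.union_assoc]; exact hcov
  have hmem : ∀ p, p ∈ X0 ∨ p ∈ X1 ∪ X2 := by
    intro p
    have : p ∈ X0 ∪ (X1 ∪ X2) := by rw [hcov']; exact Set.mem_univ p
    exact this
  have hψ0c : Continuous ψ0 := by
    rw [← continuousOn_univ, ← hcov']
    apply ContinuousOn.union_of_isClosed
    · exact hP0c.continuousOn.congr hE0
    · exact hP1c.continuousOn.congr hE1
    · exact h0
    · exact h1.union h2
  set T := b + q with hT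
  have hTpos : 0 < T - 5 * e := by rw [hT]; linarith
  have hψ0x : ψ0 x = 0 := by
    rw [hE0 x hxX0]
    simp only [hP0]
    rw [hx, min_eq_left (by linarith)]
  have hψ0b : ∀ p, 0 ≤ ψ0 p ∧ ψ0 p ≤ T - 5 * e := by
    intro p
    rcases hmem p with hp | hp
    · rw [hE0 p hp]
      simp only [hP0]
      constructor
      · exact le_min (hr0 p).1 (by linarith)
      · refine (min_le_right _ _).trans ?_
        rw [hT]; linarith
    · rw [hE1 p hp]
      simp only [hP1]
      have h3 := le_max_left (b - q + e) (min (φ p) (b - 2 * e))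
      have h4 : max (b - q + e) (min (φ p) (b - 2 * e)) ≤ b - 2 * e :=
        max_le (by linarith) (min_le_right _ _)
      constructor
      · linarith
      · rw [hT]; linarith
  obtain ⟨z, hz1, hz2⟩ : (X1 ∩ X2).Nonempty := by
    have hpre : IsPreconnected (univ : Set X) := isPreconnected_univ
    rw [isPreconnected_closed_iff] at hpre
    obtain ⟨z, -, hz, hz'⟩ := hpre (X0 ∪ X1) X2 (h0.union h1) h2 (by rw [hcov])
      ⟨x, Set.mem_univ _, Or.inl hxX0⟩ ⟨y, Set.mem_univ _, hyX2⟩
    rcases hz with hz | hz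
    · exact absurd hz' (hn02 z hz)
    · exact ⟨z, hz, hz'⟩
  have hzφ : φ z < b - q + e := h12U ⟨hz1, hz2⟩
  have hψ0z : ψ0 z = T - 5 * e := by
    rw [hE1 z (Or.inl hz1)]
    simp only [hP1]
    rw [max_eq_left ((min_le_left _ _).trans hzφ.le), hT]
    ring
  have hc : T / (T - 5 * e) * (T - 5 * e) = T := div_mul_cancel₀ _ hTpos.ne'
  have hcpos : 0 < T / (T - 5 * e) := div_pos (by rw [hT]; linarith) hTpos
  refine ⟨⟨fun p => T / (T - 5 * e) * ψ0 p, hψ0c.const_mul _⟩, ?_, ?_, ?_⟩
  · show T / (T - 5 * e) * ψ0 x = 0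
    rw [hψ0x, mul_zero]
  · apply Set.Subset.antisymm
    · rintro _ ⟨p, rfl⟩
      show 0 ≤ T / (T - 5 * e) * ψ0 p ∧ T / (T - 5 * e) * ψ0 p ≤ T
      constructor
      · exact mul_nonneg hcpos.le (hψ0b p).1
      · calc T / (T - 5 * e) * ψ0 p ≤ T / (T - 5 * e) * (T - 5 * e) :=
            mul_le_mul_of_nonneg_left (hψ0b p).2 hcpos.le
          _ = T := hc
    · have hpc : IsPreconnected (range (fun p => T / (T - 5 * e) * ψ0 p)) :=
        isPreconnected_range (hψ0c.const_mul _)
      have hoc := hpc.ordConnected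
      exact hoc.out ⟨x, by simp only [hψ0x, mul_zero]⟩ ⟨z, by simp only [hψ0z, hc]⟩
  · intro p
    show |ef b (T / (T - 5 * e) * ψ0 p) - φ p| ≤ ε
    have hφ : ef b (φ p) = φ p := by
      unfold ef
      rw [if_pos (hr0 p).2]
    have hs1 : |ef b (T / (T - 5 * e) * ψ0 p) - ef b (ψ0 p)| ≤ 5 * e := by
      refine (efold_lip b _ _).trans ?_
      have e1 : T / (T - 5 * e) * ψ0 p - ψ0 p = 5 * e * (ψ0 p / (T - 5 * e)) := by
        field_simp
        ring
      rw [e1, abs_of_nonneg (mul_nonneg (by linarith) (div_nonneg (hψ0b p).1 hTpos.le))]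
      have h3 : ψ0 p / (T - 5 * e) ≤ 1 := by
        rw [div_le_one hTpos]
        exact (hψ0b p).2
      have h4 := mul_le_mul_of_nonneg_left h3 (show 0 ≤ 5 * e by linarith)
      linarith
    have hs2 : |ef b (ψ0 p) - φ p| ≤ 6 * e := by
      rw [← hφ]
      rcases hmem p with hp | hp
      · refine (efold_lip b _ _).trans ?_
        rw [hE0 p hp]
        simp only [hP0]
        have h3 := hX0 p hp
        rcases le_total (φ p) (b - 2 * e) with h4 | h4
        · rw [min_eq_left h4, sub_self, abs_zero]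
          linarith
        · rw [min_eq_right h4, abs_le]
          constructor <;> linarith
      · have e2 : ef b (ψ0 p) =
            ef b (max (b - q + e) (min (φ p) (b - 2 * e)) + 4 * e) := by
          rw [hE1 p hp]
          simp only [hP1, efold_ef]
          have e3 : 2 * (b - 2 * e) - max (b - q + e) (min (φ p) (b - 2 * e)) - b =
              -(max (b - q + e) (min (φ p) (b - 2 * e)) + 4 * e - b) := by ring
          rw [e3, abs_neg]
        rw [e2]
        refine (efold_lip b _ _).trans ?_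
        have h3 := hX12 p hp
        have h4 := (hr0 p).2
        rcases le_total (φ p) (b - 2 * e) with h5 | h5
        · rw [min_eq_left h5]
          rcases le_total (b - q + e) (φ p) with h6 | h6
          · rw [max_eq_right h6, abs_le]
            constructor <;> linarith
          · rw [max_eq_left h6, abs_le]
            constructor <;> linarith
        · rw [min_eq_right h5, max_eq_right (by linarith), abs_le]
          constructor <;> linarith
    have hs3 : ef b (T / (T - 5 * e) * ψ0 p) - φ p =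
        (ef b (T / (T - 5 * e) * ψ0 p) - ef b (ψ0 p)) + (ef b (ψ0 p) - φ p) := by ring
    rw [hs3]
    refine (abs_add_le _ _).trans ?_
    linarith

end Pool.Agent.H300.PH
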