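import Pool.Agent.H300.PH.N1

set_option autoImplicit false

open Set Topology unitInterval

namespace Pool.Agent.H300.PH

/-- TARGET 1 -/
theorem reach_or_univ {X : Type} [TopologicalSpace X] [CompactSpace X] [T2Space X]
    [ConnectedSpace X] {φ : X → ℝ} (hφ : Continuous φ) {x : X} {a b : ℝ} (ha : a ≤ φ x)
    (hb : φ x ≤ b) :
    (∃ p ∈ connectedComponentIn (φ ⁻¹' Icc a b) x, φ p = a) ∨
    (∃ p ∈ connectedComponentIn (φ ⁻¹' Icc a b) x, φ p = b) ∨ ∀ p, a < φ p ∧ φ p < b := by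
  by_contra hcon
  push Not at hcon
  obtain ⟨h1, h2, p0, hp0⟩ := hcon
  obtain ⟨Y0, hY0, hY0c, hY0d, hx, hdis⟩ := clopen_sep (X := X) (Y := φ ⁻¹' Icc a b) (A := {x})
    (R := φ ⁻¹' {a} ∪ φ ⁻¹' {b}) (isClosed_Icc.preimage hφ) isClosed_singleton
    (by
      rintro y rfl
      exact ⟨ha, hb⟩)
    ((isClosed_singleton.preimage hφ).union (isClosed_singleton.preimage hφ))
    (by
      rintro y rfl
      rw [Set.disjoint_left]
      rintro p hp (hpa | hpb)
      · exact h1 p hp hpa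
      · exact h2 p hp hpb)
  have hIoo : ∀ p ∈ Y0, a < φ p ∧ φ p < b := by
    intro p hp
    have h3 := hY0 hp
    have h4 : p ∉ φ ⁻¹' {a} ∪ φ ⁻¹' {b} := Set.disjoint_left.1 hdis hp
    rw [Set.mem_union, not_or] at h4
    refine ⟨lt_of_le_of_ne h3.1 (fun h => h4.1 h.symm), lt_of_le_of_ne h3.2 (fun h => h4.2 h)⟩
  have heq : Y0 = φ ⁻¹' Ioo a b ∩ (φ ⁻¹' Icc a b \ Y0)ᶜ := by
    ext p
    constructor
    · intro hp
      exact ⟨hIoo p hp, fun h => h.2 hp⟩
    · rintro ⟨hp1, hp2⟩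
      by_contra hp3
      exact hp2 ⟨⟨hp1.1.le, hp1.2.le⟩, hp3⟩
  have hop : IsOpen Y0 := by
    rw [heq]
    exact (isOpen_Ioo.preimage hφ).inter hY0d.isOpen_compl
  have huniv : Y0 = univ := IsClopen.eq_univ ⟨hY0c, hop⟩ ⟨x, hx rfl⟩
  have h5 := hIoo p0 (by rw [huniv]; exact mem_univ _)
  exact absurd (hp0 h5.1) (not_le.2 h5.2)

/-- TARGET 2 -/
theorem generic_shift {X : Type} [TopologicalSpace X] [CompactSpace X] [T2Space X]
    (hX : HI X) {φ : X → ℝ} (hφ : Continuous φ) {x : X} {d : ℝ} (hd : 0 < d) :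
    ∃ t ∈ Ioo 0 d, ∀ i j : ℕ,
      ¬ ((∃ p ∈ connectedComponentIn (φ ⁻¹' Icc (φ x + t - d * (i + 1)) (φ x + t + d * j)) x,
            φ p = φ x + t - d * (i + 1)) ∧
         (∃ p ∈ connectedComponentIn (φ ⁻¹' Icc (φ x + t - d * (i + 1)) (φ x + t + d * j)) x,
            φ p = φ x + t + d * j)) := by
  classical
  let F : ℝ → ℕ → ℕ → Set X := fun t i j =>
    φ ⁻¹' Icc (φ x + t - d * (i + 1)) (φ x + t + d * j)
  have hFc : ∀ t i j, IsClosed (F t i j) := fun t i j => isClosed_Icc.preimage hφ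
  have hxF : ∀ t ∈ Ioo 0 d, ∀ i j, x ∈ F t i j := by
    intro t ht i j
    have hi : (0 : ℝ) ≤ (i : ℝ) := Nat.cast_nonneg _
    have hj : (0 : ℝ) ≤ (j : ℝ) := Nat.cast_nonneg _
    constructor
    · nlinarith [ht.2, mul_nonneg hd.le hi]
    · nlinarith [ht.1, mul_nonneg hd.le hj]
  have hcl : ∀ t ∈ Ioo 0 d, ∀ i j, IsClosed (connectedComponentIn (F t i j) x) := by
    intro t ht i j
    have h1 : closure (connectedComponentIn (F t i j) x) ⊆ connectedComponentIn (F t i j) x := by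
      refine IsPreconnected.subset_connectedComponentIn
        isPreconnected_connectedComponentIn.closure
        (subset_closure (mem_connectedComponentIn (hxF t ht i j))) ?_
      exact closure_minimal (connectedComponentIn_subset _ _) (hFc t i j)
    exact isClosed_of_closure_subset h1
  let Bad : ℕ → ℕ → Set ℝ := fun i j => {t | t ∈ Ioo 0 d ∧
    (∃ p ∈ connectedComponentIn (F t i j) x, φ p = φ x + t - d * (i + 1)) ∧
    (∃ p ∈ connectedComponentIn (F t i j) x, φ p = φ x + t + d * j)}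
  have hlt : ∀ i j : ℕ, ∀ t ∈ Bad i j, ∀ t' ∈ Bad i j, ¬ t < t' := by
    rintro i j t ⟨ht, ⟨p, hp, hpe⟩, -⟩ t' ⟨ht', -, ⟨p', hp', hpe'⟩⟩ htt
    rcases hX _ _ (hcl t ht i j) (hcl t' ht' i j) isPreconnected_connectedComponentIn
      isPreconnected_connectedComponentIn
      ⟨x, mem_connectedComponentIn (hxF t ht i j), mem_connectedComponentIn (hxF t' ht' i j)⟩
      with h | h
    · have h1 := (connectedComponentIn_subset _ _ (h hp)).1
      rw [hpe] at h1
      linarith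
    · have h1 := (connectedComponentIn_subset _ _ (h hp')).2
      rw [hpe'] at h1
      linarith
  have hsub : ∀ i j, (Bad i j).Subsingleton := by
    intro i j t ht t' ht'
    rcases lt_trichotomy t t' with h | h | h
    · exact absurd h (hlt i j t ht t' ht')
    · exact h
    · exact absurd h (hlt i j t' ht' t ht)
  have hcount : (⋃ i, ⋃ j, Bad i j).Countable :=
    Set.countable_iUnion (fun i => Set.countable_iUnion (fun j => (hsub i j).countable))
  obtain ⟨t, ht, htd⟩ := (hcount.dense_compl ℝ).exists_between hd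
  refine ⟨t, htd, fun i j hbad => ht ?_⟩
  rw [Set.mem_iUnion]
  refine ⟨i, ?_⟩
  rw [Set.mem_iUnion]
  exact ⟨j, htd, hbad⟩

end Pool.Agent.H300.PH
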