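import Pool.Agent.H300.PH.N1

set_option autoImplicit false

open Set Topology unitInterval

namespace Pool.Agent.H300.PH

/-- TARGET -/
theorem PR_turn {X : Type} [TopologicalSpace X] [CompactSpace X] [T2Space X] {φ : X → ℝ}
    (hφ : Continuous φ) {x : X} {d a b b' : ℝ} (hd : 0 ≤ d) (h : PR φ x d a b)
    (ha : a ≤ φ x) (hb : φ x ≤ b) (hbb : b ≤ b') (hbd : b' ≤ b + d)
    (hK : ∀ p ∈ connectedComponentIn (φ ⁻¹' Icc a b) x, φ p ≠ a) :
    PR (fun p => - φ p) x d (-b') (-a) := by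
  classical
  intro N hN hNF hFN hxN hNb
  have hF0 : IsClosed (φ ⁻¹' Icc a b) := isClosed_Icc.preimage hφ
  have hNF' : ∀ p ∈ N, a ≤ φ p ∧ φ p ≤ b' := by
    intro p hp
    have := hNF hp
    simp only [mem_preimage, mem_Icc] at this
    constructor <;> linarith [this.1, this.2]
  have hxF0 : x ∈ φ ⁻¹' Icc a b := ⟨ha, hb⟩
  have hab : a < b := by
    have h1 := hK x (mem_connectedComponentIn hxF0)
    exact lt_of_lt_of_le (lt_of_le_of_ne ha (Ne.symm h1)) hb
  obtain ⟨Y0, hY0F, hY0c, hY0c', hxY0, hY0a⟩ := clopen_sep (Y := φ ⁻¹' Icc a b) (A := {x})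
    (R := φ ⁻¹' {a}) hF0 isClosed_singleton (by rintro _ rfl; exact hxF0)
    (isClosed_singleton.preimage hφ) (by
      rintro _ rfl
      rw [Set.disjoint_left]
      intro p hp hpa
      exact hK p hp hpa)
  obtain ⟨N0, hN0⟩ : ∃ N0, N0 = N ∩ Y0 := ⟨_, rfl⟩
  have hN0c : IsClosed N0 := by rw [hN0]; exact hN.inter hY0c
  have hN0F : N0 ⊆ φ ⁻¹' Icc a b := by
    rw [hN0]; exact fun p hp => hY0F hp.2
  have hN0c' : IsClosed ((φ ⁻¹' Icc a b) \ N0) := by
    have h1 : (φ ⁻¹' Icc a b) \ N0 = ((φ ⁻¹' Icc a b) \ Y0) ∪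
        ((φ ⁻¹' Icc a b) ∩ (((fun p => - φ p) ⁻¹' Icc (-b') (-a)) \ N)) := by
      ext p
      simp only [hN0, mem_diff, mem_inter_iff, mem_union, mem_preimage, mem_Icc]
      constructor
      · rintro ⟨⟨h1, h2⟩, h3⟩
        by_cases h4 : p ∈ Y0
        · right
          exact ⟨⟨h1, h2⟩, ⟨by linarith, by linarith⟩, fun h5 => h3 ⟨h5, h4⟩⟩
        · left
          exact ⟨⟨h1, h2⟩, h4⟩
      · rintro (⟨h1, h2⟩ | ⟨h1, h2, h3⟩)
        · exact ⟨h1, fun h3 => h2 h3.2⟩
        · exact ⟨h1, fun h4 => h3 h4.1⟩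
    rw [h1]
    exact hY0c'.union (hF0.inter hFN)
  have hxN0 : x ∈ N0 := by rw [hN0]; exact ⟨hxN, hxY0 rfl⟩
  have hN0a : ∀ p ∈ N0, φ p ≠ a := by
    intro p hp hpa
    rw [hN0] at hp
    exact Set.disjoint_left.1 hY0a hp.2 hpa
  obtain ⟨ψ, s, L, hψc, hψx, hψL, hψe, hsψ, hsL⟩ := h N0 hN0c hN0F hN0c' hxN0 hN0a
  have hL0 : 0 ≤ L := by
    have := hψL x hxN0
    linarith [this.1, this.2]
  have hcl : ∀ p ∈ N0, p ∈ closure (N \ N0) → φ p = b := by
    intro p hp hpc
    by_contra hne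
    have h1 := hN0F hp
    have h2 : a < φ p := lt_of_le_of_ne h1.1 (Ne.symm (hN0a p hp))
    have h3 : φ p < b := lt_of_le_of_ne h1.2 hne
    have hU : IsOpen ((φ ⁻¹' Ioo a b) \ ((φ ⁻¹' Icc a b) \ N0)) :=
      (isOpen_Ioo.preimage hφ).sdiff hN0c'
    rw [mem_closure_iff] at hpc
    obtain ⟨q, hq1, hq2⟩ := hpc _ hU ⟨⟨h2, h3⟩, fun h4 => h4.2 hp⟩
    exact hq1.2 ⟨⟨hq1.1.1.le, hq1.1.2.le⟩, hq2.2⟩
  refine ⟨fun p => if p ∈ N0 then ψ p else L + (b - min (φ p) b),
    fun u => -(if u ≤ L then s u else b - (u - L)), L + (b - a), ?_, ?_, ?_, ?_, ?_, ?_⟩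
  · have hNu : N = N0 ∪ (N ∩ closure (N \ N0)) := by
      ext p
      constructor
      · intro hp
        by_cases h1 : p ∈ N0
        · exact Or.inl h1
        · exact Or.inr ⟨hp, subset_closure ⟨hp, h1⟩⟩
      · rintro (h1 | h1)
        · rw [hN0] at h1; exact h1.1
        · exact h1.1
    rw [hNu]
    apply ContinuousOn.union_of_isClosed
    · exact hψc.congr fun p hp => by simp only [hp, if_true]
    · have hg : ContinuousOn (fun p => L + (b - min (φ p) b)) (N ∩ closure (N \ N0)) := by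
        fun_prop
      refine hg.congr fun p hp => ?_
      by_cases h1 : p ∈ N0
      · have h2 := hcl p h1 hp.2
        simp only [h1, if_true]
        rw [hψe p h1 h2, h2, min_self, sub_self, add_zero]
      · simp only [h1, if_false]
    · exact hN0c
    · exact hN.inter isClosed_closure
  · simp only [hxN0, if_true]
    exact hψx
  · intro p hp
    by_cases h1 : p ∈ N0
    · simp only [h1, if_true]
      have := hψL p h1
      exact ⟨this.1, by linarith [this.2]⟩
    · simp only [h1, if_false]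
      have h2 : min (φ p) b ≤ b := min_le_right _ _
      have h3 : a ≤ min (φ p) b := le_min (hNF' p hp).1 hab.le
      constructor <;> linarith
  · intro p hp hpa
    have hpa' : φ p = a := by linarith
    have h1 : p ∉ N0 := fun h1 => hN0a p h1 hpa'
    simp only [h1, if_false]
    rw [hpa', min_eq_left hab.le]
  · intro p hp
    by_cases h1 : p ∈ N0
    · simp only [h1, if_true]
      rw [if_pos (hψL p h1).2]
      have := hsψ p h1
      rw [neg_sub_neg, abs_sub_comm]
      exact this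
    · simp only [h1, if_false]
      rcases le_or_gt b (φ p) with h2 | h2
      · rw [min_eq_right h2, sub_self, add_zero, if_pos le_rfl, hsL, neg_sub_neg,
          abs_of_nonneg (by linarith)]
        linarith [(hNF' p hp).2]
      · rw [min_eq_left h2.le, if_neg (by linarith)]
        have : -(b - (L + (b - φ p) - L)) - -φ p = 0 := by ring
        rw [this, abs_zero]
        exact hd
  · simp only
    rw [if_neg (by linarith)]
    ring

end Pool.Agent.H300.PH
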