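import Pool.Agent.H300.PH.ET01
import Pool.Agent.H300.PH.ET2
import Pool.Agent.H300.PH.EG

set_option autoImplicit false

open Set Topology unitInterval

namespace Pool.Agent.H300.PH

/-- TARGET (E): every point is an end point -/
theorem endpoint {X : Type} [TopologicalSpace X] [CompactSpace X] [T2Space X]
    [ConnectedSpace X] (hX : HI X) (x : X) (φ : C(X, ℝ)) {d : ℝ} (hd : 0 < d) :
    ∃ (ψ : C(X, ℝ)) (s : ℝ → ℝ), ψ x = 0 ∧ (∀ p, 0 ≤ ψ p) ∧ ∀ p, |s (ψ p) - φ p| ≤ d := by
  classical
  obtain ⟨t, ⟨ht0, htd⟩, hgen⟩ := generic_shift hX φ.continuous (x := x) hd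
  obtain ⟨M, hM⟩ := isCompact_univ.exists_bound_of_continuousOn
    (φ.continuous.continuousOn (s := (univ : Set X)))
  have hM' : ∀ p, |φ p| ≤ M := fun p => by
    have := hM p (mem_univ p)
    rwa [Real.norm_eq_abs] at this
  obtain ⟨v, hv⟩ : ∃ v, v = φ x := ⟨_, rfl⟩
  rw [← hv] at hgen
  obtain ⟨a, hadef⟩ : ∃ a : ℕ → ℝ, ∀ i, a i = v + t - d * (i + 1) := ⟨_, fun _ => rfl⟩
  obtain ⟨b, hbdef⟩ : ∃ b : ℕ → ℝ, ∀ j, b j = v + t + d * j := ⟨_, fun _ => rfl⟩
  have hgen' : ∀ i j : ℕ,
      ¬ ((∃ p ∈ connectedComponentIn (φ ⁻¹' Icc (a i) (b j)) x, φ p = a i) ∧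
         (∃ p ∈ connectedComponentIn (φ ⁻¹' Icc (a i) (b j)) x, φ p = b j)) := by
    intro i j
    rw [hadef i, hbdef j]
    exact hgen i j
  have hφ' : Continuous (fun p => - φ p) := φ.continuous.neg
  have hvM := hM' x
  rw [← hv, abs_le] at hvM
  have ha : ∀ i, a i ≤ φ x := by
    intro i
    rw [hadef, ← hv]
    have : 0 ≤ d * (i:ℝ) := by positivity
    linarith
  have hb : ∀ j, φ x ≤ b j := by
    intro j
    rw [hbdef, ← hv]
    have : 0 ≤ d * (j:ℝ) := by positivity
    linarith
  have hset : ∀ i j, (fun p => - φ p) ⁻¹' Icc (-(b j)) (-(a i)) = φ ⁻¹' Icc (a i) (b j) := by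
    intro i j
    ext p
    simp only [mem_preimage, mem_Icc, neg_le_neg_iff]
    exact and_comm
  by_contra hcon
  have main : ∀ n : ℕ, ∃ i j : ℕ, i + j = n ∧ PR φ x d (a i) (b j) ∧
      PR (fun p => - φ p) x d (-(b j)) (-(a i)) ∧ d * j ≤ 2 * M + d ∧ d * i ≤ 2 * M + d := by
    intro n
    induction n with
    | zero =>
      refine ⟨0, 0, rfl, PR_init φ.continuous ?_ hd.le (hb 0),
        PR_init hφ' ?_ hd.le (neg_le_neg (ha 0)), ?_, ?_⟩
      · rw [hadef, ← hv]; push_cast; linarith
      · rw [hbdef, ← hv]; push_cast; linarith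
      · push_cast; linarith
      · push_cast; linarith
    | succ n ih =>
      obtain ⟨i, j, hij, h1, h2, h3, h4⟩ := ih
      rcases reach_or_univ φ.continuous (ha i) (hb j) with hl | hr | hu
      · -- the left end is reached
        have hmiss : ∀ p ∈ connectedComponentIn (φ ⁻¹' Icc (a i) (b j)) x, φ p ≠ b j :=
          fun p hp he => hgen' i j ⟨hl, p, hp, he⟩
        obtain ⟨p, hp, hpe⟩ := hl
        have hbd : -(a (i + 1)) = -(a i) + d := by
          rw [hadef, hadef]; push_cast; ring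
        refine ⟨i + 1, j, by omega, ?_, ?_, h3, ?_⟩
        · have h5 := PR_turn hφ' hd.le h2 (neg_le_neg (hb j)) (neg_le_neg (ha i))
            (b' := -(a (i + 1))) (by rw [hbd]; linarith) (by rw [hbd]) (by
              rw [hset i j]
              intro q hq he
              exact hmiss q hq (neg_injective he))
          simp only [neg_neg] at h5
          exact h5
        · exact PR_mono hφ' hd.le h2 (neg_le_neg (ha i)) (by rw [hbd]; linarith)
        · have h6 := abs_le.mp (hM' p)
          rw [hpe, hadef] at h6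
          push_cast
          linarith
      · have hmiss : ∀ p ∈ connectedComponentIn (φ ⁻¹' Icc (a i) (b j)) x, φ p ≠ a i :=
          fun p hp he => hgen' i j ⟨⟨p, hp, he⟩, hr⟩
        obtain ⟨p, hp, hpe⟩ := hr
        have hbd : b (j + 1) = b j + d := by
          rw [hbdef, hbdef]; push_cast; ring
        refine ⟨i, j + 1, by omega, ?_, ?_, ?_, h4⟩
        · exact PR_mono φ.continuous hd.le h1 (hb j) (by rw [hbd]; linarith)
        · exact PR_turn φ.continuous hd.le h1 (ha i) (hb j) (by rw [hbd]; linarith)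
            (by rw [hbd]) hmiss
        · have h6 := abs_le.mp (hM' p)
          rw [hpe, hbdef] at h6
          push_cast
          linarith
      · exfalso
        apply hcon
        obtain ⟨ψ, s, L, hψ, hψx, hψL, -, hs, -⟩ := h1 univ isClosed_univ
          (fun p _ => ⟨(hu p).1.le, (hu p).2.le⟩)
          (by rw [show (φ ⁻¹' Icc (a i) (b j)) \ univ = ∅ from sdiff_univ _]; exact isClosed_empty)
          (mem_univ x) (fun p _ => (hu p).1.ne')
        exact ⟨⟨ψ, continuousOn_univ.mp hψ⟩, s, hψx, fun p => (hψL p (mem_univ p)).1,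
          fun p => hs p (mem_univ p)⟩
  obtain ⟨n, hn⟩ := exists_nat_gt (2 * (2 * M + d) / d)
  obtain ⟨i, j, hij, -, -, h3, h4⟩ := main n
  rw [div_lt_iff₀ hd] at hn
  have : (n:ℝ) = i + j := by rw [← hij]; push_cast; ring
  rw [this] at hn
  nlinarith

end Pool.Agent.H300.PH
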