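import Pool.Agent.H300.PH.Defs

set_option autoImplicit false

open Set Topology unitInterval

namespace Pool.Agent.H300.PH

/-- TARGET 1 -/
theorem PR_init {X : Type} [TopologicalSpace X] {φ : X → ℝ} (hφ : Continuous φ) {x : X}
    {d a b : ℝ} (h1 : φ x - a ≤ d) (hd : 0 ≤ d) (hb : φ x ≤ b) : PR φ x d a b := by
  intro N _ hNs _ hx _
  refine ⟨fun p => max (φ p - φ x) 0, fun u => φ x + u, b - φ x, ?_, ?_, ?_, ?_, ?_, ?_⟩
  · exact (Continuous.max (hφ.sub continuous_const) continuous_const).continuousOn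
  · simp
  · intro p hp
    refine ⟨le_max_right _ _, max_le ?_ ?_⟩
    · have := (hNs hp).2
      linarith
    · linarith
  · intro p _ hpb
    simp only [hpb]
    exact max_eq_left (by linarith)
  · intro p hp
    have h2 := (hNs hp).1
    simp only
    rcases le_total (φ p - φ x) 0 with h | h
    · rw [max_eq_right h, add_zero, abs_le]
      constructor <;> linarith
    · rw [max_eq_left h, add_sub_cancel, sub_self, abs_zero]
      exact hd
  · ring

/-- TARGET 2 -/
theorem PR_mono {X : Type} [TopologicalSpace X] {φ : X → ℝ} (hφ : Continuous φ) {x : X}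
    {d a b b' : ℝ} (hd : 0 ≤ d) (h : PR φ x d a b) (hb : φ x ≤ b) (hbb : b ≤ b') :
    PR φ x d a b' := by
  intro N hN hNs hNc hx hna
  have hcl : IsClosed (φ ⁻¹' Icc a b) := isClosed_Icc.preimage hφ
  have hN0 : IsClosed (N ∩ φ ⁻¹' Icc a b) := hN.inter hcl
  have hcomp : (φ ⁻¹' Icc a b) \ (N ∩ φ ⁻¹' Icc a b) =
      (φ ⁻¹' Icc a b) ∩ ((φ ⁻¹' Icc a b') \ N) := by
    ext p
    constructor
    · rintro ⟨h1, h2⟩
      exact ⟨h1, ⟨h1.1, h1.2.trans hbb⟩, fun h3 => h2 ⟨h3, h1⟩⟩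
    · rintro ⟨h1, _, h2⟩
      exact ⟨h1, fun h3 => h2 h3.1⟩
  have hx0 : x ∈ N ∩ φ ⁻¹' Icc a b := ⟨hx, (hNs hx).1, hb⟩
  obtain ⟨ψ, s, L, hψc, hψx, hψb, hψe, hψs, hsL⟩ := h (N ∩ φ ⁻¹' Icc a b) hN0 inter_subset_right
    (by rw [hcomp]; exact hcl.inter hNc) hx0 (fun p hp => hna p hp.1)
  have hL : 0 ≤ L := (hψb x hx0).1.trans (hψb x hx0).2
  classical
  obtain ⟨ψ', hψ'⟩ : ∃ ψ' : X → ℝ, ψ' = fun p => if φ p ≤ b then ψ p else L + (φ p - b) :=
    ⟨_, rfl⟩
  have e1 : ∀ p, φ p ≤ b → ψ' p = ψ p := fun p hp => by rw [hψ']; simp [hp]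
  have e2 : ∀ p ∈ N, b ≤ φ p → ψ' p = L + (φ p - b) := by
    intro p hp hpb
    rcases eq_or_lt_of_le hpb with h1 | h1
    · rw [e1 p h1.symm.le, hψe p ⟨hp, (hNs hp).1, h1.symm.le⟩ h1.symm, ← h1]
      ring
    · rw [hψ']
      simp [not_le.2 h1]
  refine ⟨ψ', fun u => if u ≤ L then s u else b + (u - L), L + (b' - b), ?_, ?_, ?_, ?_, ?_, ?_⟩
  · have hU : N = (N ∩ φ ⁻¹' Icc a b) ∪ (N ∩ φ ⁻¹' Ici b) := by
      ext p
      constructor
      · intro hp
        rcases le_total (φ p) b with h1 | h1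
        · exact Or.inl ⟨hp, (hNs hp).1, h1⟩
        · exact Or.inr ⟨hp, h1⟩
      · rintro (h1 | h1)
        · exact h1.1
        · exact h1.1
    rw [hU]
    apply ContinuousOn.union_of_isClosed
    · exact hψc.congr fun p hp => e1 p hp.2.2
    · have h1 : ContinuousOn (fun p => L + (φ p - b)) (N ∩ φ ⁻¹' Ici b) :=
        (continuous_const.add (hφ.sub continuous_const)).continuousOn
      exact h1.congr fun p hp => e2 p hp.1 hp.2
    · exact hN0
    · exact hN.inter (isClosed_Ici.preimage hφ)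
  · rw [e1 x hb, hψx]
  · intro p hp
    rcases le_total (φ p) b with h1 | h1
    · have h2 := hψb p ⟨hp, (hNs hp).1, h1⟩
      rw [e1 p h1]
      exact ⟨h2.1, by linarith [h2.2]⟩
    · rw [e2 p hp h1]
      have h2 := (hNs hp).2
      exact ⟨by linarith, by linarith⟩
  · intro p hp hpb
    rw [e2 p hp (by rw [hpb]; exact hbb), hpb]
  · intro p hp
    rcases le_total (φ p) b with h1 | h1
    · have h3 : p ∈ N ∩ φ ⁻¹' Icc a b := ⟨hp, (hNs hp).1, h1⟩
      have h2 := hψb p h3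
      simp only
      rw [e1 p h1, if_pos h2.2]
      exact hψs p h3
    · simp only
      rw [e2 p hp h1]
      rcases eq_or_lt_of_le h1 with h4 | h4
      · rw [if_pos (by linarith), ← h4, sub_self, add_zero, hsL, sub_self, abs_zero]
        exact hd
      · rw [if_neg (by linarith)]
        have : b + (L + (φ p - b) - L) - φ p = 0 := by ring
        rw [this, abs_zero]
        exact hd
  · simp only
    rcases eq_or_lt_of_le hbb with h1 | h1
    · rw [if_pos (by linarith), ← h1, sub_self, add_zero, hsL]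
    · rw [if_neg (by linarith)]
      ring

end Pool.Agent.H300.PH
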