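import Pool.Agent.H300.PH.Defs

set_option autoImplicit false

open Set Topology unitInterval

namespace Pool.Agent.H300.PH

/-- TARGET (F): if `φ` is almost constant on the fibres of the surjection `φ'`, then `φ` is almost a
function of `φ'`. -/
theorem factorF {X : Type} [TopologicalSpace X] [CompactSpace X] {x : X} (φ φ' : C(X, I))
    (hφ : Function.Surjective φ) (hφ' : Function.Surjective φ') (hx : φ x = 0) (hx' : φ' x = 0)
    {δ : ℝ} (hδ : 0 < δ) (h : ∀ p q, φ' p = φ' q → |(φ p : ℝ) - φ q| ≤ δ / 8) :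
    ∃ k : C(I, I), k 0 = 0 ∧ Function.Surjective k ∧ ∀ p, |(k (φ' p) : ℝ) - φ p| ≤ δ := by
  by_cases hδ1 : 1 ≤ δ
  · refine ⟨ContinuousMap.id I, rfl, Function.surjective_id, fun p => ?_⟩
    simp only [ContinuousMap.id_apply]
    have h1 := (φ' p).2.1
    have h2 := (φ' p).2.2
    have h3 := (φ p).2.1
    have h4 := (φ p).2.2
    rw [abs_le]
    constructor <;> linarith
  push Not at hδ1
  have hcont : Continuous (fun p => (φ p : ℝ)) := continuous_subtype_val.comp φ.continuous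
  -- the fibrewise closeness is stable
  have key : ∀ (s : I) (p0 : X), φ' p0 = s →
      ∀ᶠ s' in 𝓝 s, ∀ p, φ' p = s' → |(φ p0 : ℝ) - φ p| ≤ δ / 4 := by
    intro s p0 hp0
    have hF : IsClosed {p : X | δ / 4 ≤ |(φ p0 : ℝ) - φ p|} :=
      isClosed_le continuous_const ((continuous_const.sub hcont).abs)
    have hK : IsCompact (φ' '' {p : X | δ / 4 ≤ |(φ p0 : ℝ) - φ p|}) :=
      hF.isCompact.image φ'.continuous
    have hs : s ∈ (φ' '' {p : X | δ / 4 ≤ |(φ p0 : ℝ) - φ p|})ᶜ := by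
      rintro ⟨p, hp, hps⟩
      have h1 := h p0 p (hp0.trans hps.symm)
      have h2 : δ / 4 ≤ |(φ p0 : ℝ) - φ p| := hp
      linarith
    filter_upwards [hK.isClosed.isOpen_compl.mem_nhds hs] with s' hs' p hp
    by_contra hc
    push Not at hc
    exact hs' ⟨p, hc.le, hp⟩
  obtain ⟨g, hg⟩ : ∃ g : C(I, ℝ), ∀ s, g s ∈ {c : ℝ | (s = 0 → c = 0) ∧ 0 ≤ c ∧ c ≤ 1 ∧
      ∀ p, φ' p = s → |c - φ p| ≤ δ / 4} := by
    refine exists_continuous_forall_mem_convex_of_local_const
      (t := fun s => {c : ℝ | (s = 0 → c = 0) ∧ 0 ≤ c ∧ c ≤ 1 ∧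
        ∀ p, φ' p = s → |c - φ p| ≤ δ / 4}) ?_ ?_
    · intro s c hc d hd a b ha hb hab
      refine ⟨fun h0 => ?_, ?_, ?_, fun p hp => ?_⟩
      · rw [hc.1 h0, hd.1 h0]; simp
      · simp only [smul_eq_mul]
        have h1 := mul_nonneg ha hc.2.1
        have h2 := mul_nonneg hb hd.2.1
        linarith
      · simp only [smul_eq_mul]
        have h1 := mul_le_mul_of_nonneg_left hc.2.2.1 ha
        have h2 := mul_le_mul_of_nonneg_left hd.2.2.1 hb
        linarith
      · simp only [smul_eq_mul]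
        have h1 := hc.2.2.2 p hp
        have h2 := hd.2.2.2 p hp
        have e : a * c + b * d - (φ p : ℝ) = a * (c - φ p) + b * (d - φ p) := by
          have : (φ p : ℝ) = (a + b) * φ p := by rw [hab, one_mul]
          linear_combination -this
        rw [e]
        calc |a * (c - φ p) + b * (d - φ p)| ≤ |a * (c - φ p)| + |b * (d - φ p)| := abs_add_le _ _
          _ = a * |c - φ p| + b * |d - φ p| := by
              rw [abs_mul, abs_mul, abs_of_nonneg ha, abs_of_nonneg hb]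
          _ ≤ a * (δ / 4) + b * (δ / 4) :=
              add_le_add (mul_le_mul_of_nonneg_left h1 ha) (mul_le_mul_of_nonneg_left h2 hb)
          _ = δ / 4 := by rw [← add_mul, hab, one_mul]
    · intro s
      by_cases hs : s = 0
      · refine ⟨0, ?_⟩
        have h1 := key s x (by rw [hs, hx'])
        filter_upwards [h1] with s' hs'
        refine ⟨fun _ => rfl, le_refl _, zero_le_one, fun p hp => ?_⟩
        have h2 := hs' p hp
        rw [hx] at h2
        simpa using h2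
      · obtain ⟨p0, hp0⟩ := hφ' s
        refine ⟨φ p0, ?_⟩
        have h1 := key s p0 hp0
        have h2 : ∀ᶠ s' in 𝓝 s, s' ≠ 0 := isOpen_ne.mem_nhds hs
        filter_upwards [h1, h2] with s' hs' hs''
        exact ⟨fun h0 => absurd h0 hs'', (φ p0).2.1, (φ p0).2.2, hs'⟩
  -- normalise
  obtain ⟨s1, -, hs1⟩ := isCompact_univ.exists_isMaxOn (univ_nonempty) g.continuous.continuousOn
  have hmax : ∀ s, g s ≤ g s1 := fun s => hs1 (mem_univ s)
  obtain ⟨p1, hp1⟩ := hφ 1
  have hM1 : 1 - δ / 4 ≤ g s1 := by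
    have h1 := (hg (φ' p1)).2.2.2 p1 rfl
    rw [hp1] at h1
    have h2 := (abs_le.mp h1).1
    have h3 := hmax (φ' p1)
    have h4 : ((1 : I) : ℝ) = 1 := rfl
    rw [h4] at h2
    linarith
  have hM0 : 0 < g s1 := by linarith
  have hM2 : g s1 ≤ 1 := (hg s1).2.2.1
  have hk0 : ∀ s, 0 ≤ g s / g s1 := fun s => div_nonneg (hg s).2.1 hM0.le
  have hk1 : ∀ s, g s / g s1 ≤ 1 := fun s => (div_le_one hM0).mpr (hmax s)
  let k : C(I, I) := ⟨fun s => ⟨g s / g s1, hk0 s, hk1 s⟩, by
    apply Continuous.subtype_mk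
    exact g.continuous.div_const _⟩
  have hkv : ∀ s, (k s : ℝ) = g s / g s1 := fun s => rfl
  refine ⟨k, ?_, ?_, ?_⟩
  · apply Subtype.ext
    rw [hkv, (hg 0).1 rfl, zero_div]
    rfl
  · intro c
    have h1 : k 0 ≤ c := by
      have : (k 0 : ℝ) = 0 := by rw [hkv, (hg 0).1 rfl, zero_div]
      show (k 0 : ℝ) ≤ c
      rw [this]; exact c.2.1
    have h2 : c ≤ k s1 := by
      show (c : ℝ) ≤ k s1
      rw [hkv, div_self hM0.ne']; exact c.2.2
    exact mem_range_of_exists_le_of_exists_ge k.continuous ⟨0, h1⟩ ⟨s1, h2⟩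
  · intro p
    rw [hkv]
    have h1 := (hg (φ' p)).2.2.2 p rfl
    have h2 : |g (φ' p) / g s1 - g (φ' p)| ≤ δ / 4 := by
      have e : g (φ' p) / g s1 - g (φ' p) = (g (φ' p) / g s1) * (1 - g s1) := by
        field_simp
      rw [e, abs_of_nonneg (mul_nonneg (hk0 _) (by linarith))]
      calc g (φ' p) / g s1 * (1 - g s1) ≤ 1 * (1 - g s1) :=
            mul_le_mul_of_nonneg_right (hk1 _) (by linarith)
        _ ≤ δ / 4 := by linarith
    have h3 : |g (φ' p) / g s1 - (φ p : ℝ)| ≤ δ / 4 + δ / 4 := by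
      calc |g (φ' p) / g s1 - (φ p : ℝ)| =
            |(g (φ' p) / g s1 - g (φ' p)) + (g (φ' p) - φ p)| := by ring_nf
        _ ≤ |g (φ' p) / g s1 - g (φ' p)| + |g (φ' p) - φ p| := abs_add_le _ _
        _ ≤ δ / 4 + δ / 4 := add_le_add h2 h1
    linarith

end Pool.Agent.H300.PH
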