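import Pool.Agent.H300.PH.Defs

set_option autoImplicit false

open Set Topology unitInterval

namespace Pool.Agent.H300.PH

theorem ladder_limit_ex {X Y : Type} [MetricSpace X] [MetricSpace Y] [CompactSpace Y]
    (φ : ℕ → C(X, I)) (ψ : ℕ → C(Y, I)) (k : ℕ → C(I, I)) (δ : ℕ → ℝ)
    (hδ : ∀ n, 0 < δ n) (hψs : ∀ n, Function.Surjective (ψ n))
    (h1 : ∀ n p, |(k n (φ (n + 1) p) : ℝ) - φ n p| ≤ δ n)
    (h2 : ∀ n p, |(k n (ψ (n + 1) p) : ℝ) - ψ n p| ≤ δ n)
    (h3 : ∀ n (s t : I), |(s : ℝ) - t| ≤ 3 * δ (n + 1) → |(k n s : ℝ) - k n t| ≤ δ n) (p : X) :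
    ∃ q : Y, ∀ n, |(φ n p : ℝ) - ψ n q| ≤ 3 * δ n := by
  have step : ∀ (q : Y) (n : ℕ), |(φ (n + 1) p : ℝ) - ψ (n + 1) q| ≤ 3 * δ (n + 1) →
      |(φ n p : ℝ) - ψ n q| ≤ 3 * δ n := by
    intro q n hn
    have e1 := abs_le.1 (h1 n p)
    have e2 := abs_le.1 (h2 n q)
    have e3 := abs_le.1 (h3 n _ _ hn)
    rw [abs_le]
    constructor <;> linarith [e1.1, e1.2, e2.1, e2.2, e3.1, e3.2]
  have desc : ∀ (N : ℕ) (q : Y), ψ N q = φ N p → ∀ n ≤ N, |(φ n p : ℝ) - ψ n q| ≤ 3 * δ n := by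
    intro N q hq n hn
    have h : ∀ m n, n + m = N → |(φ n p : ℝ) - ψ n q| ≤ 3 * δ n := by
      intro m
      induction m with
      | zero =>
        intro n hn
        have : n = N := by omega
        subst this
        rw [hq, sub_self, abs_zero]
        have := hδ n
        positivity
      | succ m ih => intro n hn; exact step q n (ih (n + 1) (by omega))
    exact h (N - n) n (by omega)
  let C : ℕ → Set Y := fun N => {q | ∀ n ≤ N, |(φ n p : ℝ) - ψ n q| ≤ 3 * δ n}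
  have hclosed : ∀ N, IsClosed (C N) := by
    intro N
    have h : C N = ⋂ n, ⋂ (_ : n ≤ N), {q | |(φ n p : ℝ) - ψ n q| ≤ 3 * δ n} := by
      ext q
      simp only [C, Set.mem_setOf_eq, Set.mem_iInter]
    rw [h]
    refine isClosed_iInter fun n => isClosed_iInter fun _ => isClosed_le ?_ continuous_const
    exact (continuous_const.sub (continuous_subtype_val.comp (ψ n).continuous)).abs
  have hne := IsCompact.nonempty_iInter_of_sequence_nonempty_isCompact_isClosed C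
    (fun N q hq n hn => hq n (hn.trans (Nat.le_succ N)))
    (fun N => by
      obtain ⟨q, hq⟩ := hψs N (φ N p)
      exact ⟨q, desc N q hq⟩) (hclosed 0).isCompact hclosed
  obtain ⟨q, hq⟩ := hne
  rw [Set.mem_iInter] at hq
  exact ⟨q, fun n => hq n n le_rfl⟩

/-- TARGET (H2): the homeomorphism from the ladder -/
theorem ladder_limit {X Y : Type} [MetricSpace X] [CompactSpace X] [MetricSpace Y] [CompactSpace Y]
    (x : X) (y : Y) (φ : ℕ → C(X, I)) (ψ : ℕ → C(Y, I)) (k : ℕ → C(I, I)) (δ : ℕ → ℝ)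
    (hδ : ∀ n, 0 < δ n) (hφs : ∀ n, Function.Surjective (φ n))
    (hψs : ∀ n, Function.Surjective (ψ n))
    (h1 : ∀ n p, |(k n (φ (n + 1) p) : ℝ) - φ n p| ≤ δ n)
    (h2 : ∀ n p, |(k n (ψ (n + 1) p) : ℝ) - ψ n p| ≤ δ n)
    (h3 : ∀ n (s t : I), |(s : ℝ) - t| ≤ 3 * δ (n + 1) → |(k n s : ℝ) - k n t| ≤ δ n)
    (h4 : ∀ ε : ℝ, 0 < ε → ∃ n, ∀ p p' : X, |(φ n p : ℝ) - φ n p'| ≤ 6 * δ n → dist p p' < ε)
    (h5 : ∀ ε : ℝ, 0 < ε → ∃ n, ∀ p p' : Y, |(ψ n p : ℝ) - ψ n p'| ≤ 6 * δ n → dist p p' < ε)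
    (hx : ∀ n, φ n x = 0) (hy : ∀ n, ψ n y = 0) :
    ∃ h : X ≃ₜ Y, h x = y := by
  let T : Set (X × Y) := {r | ∀ n, |(φ n r.1 : ℝ) - ψ n r.2| ≤ 3 * δ n}
  have hTc : IsClosed T := by
    have h : T = ⋂ n, {r : X × Y | |(φ n r.1 : ℝ) - ψ n r.2| ≤ 3 * δ n} := by
      ext r
      simp only [T, Set.mem_setOf_eq, Set.mem_iInter]
    rw [h]
    refine isClosed_iInter fun n => isClosed_le ?_ continuous_const
    exact ((continuous_subtype_val.comp ((φ n).continuous.comp continuous_fst)).sub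
      (continuous_subtype_val.comp ((ψ n).continuous.comp continuous_snd))).abs
  haveI hTcomp : CompactSpace T := isCompact_iff_compactSpace.1 hTc.isCompact
  have hu1 : ∀ p q q', (p, q) ∈ T → (p, q') ∈ T → q = q' := by
    intro p q q' hq hq'
    by_contra hne
    have hd : 0 < dist q q' := dist_pos.2 hne
    obtain ⟨n, hn⟩ := h5 _ hd
    refine lt_irrefl _ (hn q q' ?_)
    have e1 := abs_le.1 (hq n)
    have e2 := abs_le.1 (hq' n)
    simp only at e1 e2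
    rw [abs_le]
    constructor <;> linarith [e1.1, e1.2, e2.1, e2.2]
  have hu2 : ∀ p p' q, (p, q) ∈ T → (p', q) ∈ T → p = p' := by
    intro p p' q hq hq'
    by_contra hne
    have hd : 0 < dist p p' := dist_pos.2 hne
    obtain ⟨n, hn⟩ := h4 _ hd
    refine lt_irrefl _ (hn p p' ?_)
    have e1 := abs_le.1 (hq n)
    have e2 := abs_le.1 (hq' n)
    simp only at e1 e2
    rw [abs_le]
    constructor <;> linarith [e1.1, e1.2, e2.1, e2.2]
  let f1 : T → X := fun t => t.1.1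
  let f2 : T → Y := fun t => t.1.2
  have hf1 : Function.Bijective f1 := by
    refine ⟨?_, ?_⟩
    · rintro ⟨⟨p, q⟩, h⟩ ⟨⟨p', q'⟩, h'⟩ e
      have e' : p = p' := e
      subst e'
      have := hu1 p q q' h h'
      subst this
      rfl
    · intro p
      obtain ⟨q, hq⟩ := ladder_limit_ex φ ψ k δ hδ hψs h1 h2 h3 p
      exact ⟨⟨(p, q), hq⟩, rfl⟩
  have hf2 : Function.Bijective f2 := by
    refine ⟨?_, ?_⟩
    · rintro ⟨⟨p, q⟩, h⟩ ⟨⟨p', q'⟩, h'⟩ e
      have e' : q = q' := e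
      subst e'
      have := hu2 p p' q h h'
      subst this
      rfl
    · intro q
      obtain ⟨p, hp⟩ := ladder_limit_ex ψ φ k δ hδ hφs h2 h1 h3 q
      exact ⟨⟨(p, q), fun n => by rw [abs_sub_comm]; exact hp n⟩, rfl⟩
  have hc1 : Continuous (Equiv.ofBijective f1 hf1) :=
    continuous_fst.comp continuous_subtype_val
  have hc2 : Continuous (Equiv.ofBijective f2 hf2) :=
    continuous_snd.comp continuous_subtype_val
  let e1 : T ≃ₜ X := hc1.homeoOfEquivCompactToT2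
  let e2 : T ≃ₜ Y := hc2.homeoOfEquivCompactToT2
  have hxy : (x, y) ∈ T := by
    intro n
    show |(φ n x : ℝ) - ψ n y| ≤ 3 * δ n
    rw [hx n, hy n, sub_self, abs_zero]
    have := hδ n
    positivity
  refine ⟨e1.symm.trans e2, ?_⟩
  have h6 : e1 ⟨(x, y), hxy⟩ = x := rfl
  have h7 : e1.symm x = ⟨(x, y), hxy⟩ := by
    have h8 := Homeomorph.symm_apply_apply e1 ⟨(x, y), hxy⟩
    rwa [h6] at h8
  show e2 (e1.symm x) = y
  rw [h7]
  rfl

end Pool.Agent.H300.PH
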