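import Pool.Agent.H300.PH.FC
import Pool.Agent.H300.PH.H2

set_option autoImplicit false

open Set Topology unitInterval

namespace Pool.Agent.H300.PH

theorem ladder_sep {X : Type} [MetricSpace X] [CompactSpace X] (φ : C(X, I)) {e : ℝ}
    (h : ∀ p q, φ p = φ q → dist p q < e) :
    ∃ η : ℝ, 0 < η ∧ ∀ p q, |(φ p : ℝ) - φ q| < η → dist p q < e := by
  by_cases hK : ({z : X × X | e ≤ dist z.1 z.2}).Nonempty
  · have hc : IsCompact {z : X × X | e ≤ dist z.1 z.2} :=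
      (isClosed_le continuous_const (continuous_dist)).isCompact
    have hf : Continuous fun z : X × X => |(φ z.1 : ℝ) - φ z.2| := by fun_prop
    obtain ⟨z, hz, hmin⟩ := hc.exists_isMinOn hK hf.continuousOn
    refine ⟨|(φ z.1 : ℝ) - φ z.2|, ?_, fun p q hpq => ?_⟩
    · rw [abs_pos, sub_ne_zero]
      intro heq
      have := h z.1 z.2 (Subtype.ext heq)
      exact absurd this (not_lt.2 hz)
    · by_contra hcon
      have h2 := hmin (show (p, q) ∈ {z : X × X | e ≤ dist z.1 z.2} from not_lt.1 hcon)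
      exact absurd hpq (not_lt.2 h2)
  · refine ⟨1, one_pos, fun p q _ => ?_⟩
    by_contra hcon
    exact hK ⟨(p, q), not_lt.1 hcon⟩

theorem ladder_uc {X : Type} [MetricSpace X] [CompactSpace X] (φ : C(X, I)) {d : ℝ} (hd : 0 < d) :
    ∃ η : ℝ, 0 < η ∧ ∀ p q, dist p q < η → |(φ p : ℝ) - φ q| < d := by
  have hu := CompactSpace.uniformContinuous_of_continuous φ.continuous
  obtain ⟨η, hη, h⟩ := Metric.uniformContinuous_iff.1 hu d hd
  refine ⟨η, hη, fun p q hpq => ?_⟩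
  have := h hpq
  rwa [Subtype.dist_eq, Real.dist_eq] at this

theorem ladder_step {X Y : Type} [MetricSpace X] [CompactSpace X] [MetricSpace Y] [CompactSpace Y]
    (x : X) (y : Y) (fx : Fine X x) (ly : Lift Y y) (φ : C(X, I)) (ψ : C(Y, I)) (d e : ℝ)
    (hφ : Function.Surjective φ) (hψ : Function.Surjective ψ) (hx : φ x = 0) (hy : ψ y = 0)
    (hd : 0 < d) (he : 0 < e) :
    ∃ (φ1 : C(X, I)) (ψ1 : C(Y, I)) (k : C(I, I)) (d1 : ℝ),
      Function.Surjective φ1 ∧ Function.Surjective ψ1 ∧ φ1 x = 0 ∧ ψ1 y = 0 ∧ 0 < d1 ∧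
      (∀ p, |(k (φ1 p) : ℝ) - φ p| ≤ d) ∧ (∀ p, |(k (ψ1 p) : ℝ) - ψ p| ≤ d) ∧
      (∀ s t : I, |(s : ℝ) - t| ≤ 3 * d1 → |(k s : ℝ) - k t| ≤ d) ∧
      (∀ p q, |(φ1 p : ℝ) - φ1 q| ≤ 6 * d1 → dist p q < e) := by
  obtain ⟨η, hη, hφu⟩ := ladder_uc φ (show 0 < d / 8 by positivity)
  obtain ⟨φ1, h1x, h1s, h1f⟩ := fx (min η e) (lt_min hη he)
  obtain ⟨k, hk0, hks, hk⟩ := factorF φ φ1 hφ h1s hx h1x hd
    (fun p q hpq => (hφu p q ((h1f p q hpq).trans_le (min_le_left _ _))).le)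
  obtain ⟨ψ1, h2y, h2s, h2⟩ := ly ψ k hy hψ hk0 hks d hd
  obtain ⟨η1, hη1, hku⟩ := ladder_uc k hd
  obtain ⟨η2, hη2, hsep⟩ := ladder_sep φ1 (e := e)
    (fun p q hpq => (h1f p q hpq).trans_le (min_le_right _ _))
  refine ⟨φ1, ψ1, k, min (η1 / 4) (η2 / 7), h1s, h2s, h1x, h2y, by positivity, hk, h2, ?_, ?_⟩
  · intro s t hst
    refine (hku s t ?_).le
    rw [Subtype.dist_eq, Real.dist_eq]
    have := min_le_left (η1 / 4) (η2 / 7)
    linarith
  · intro p q hpq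
    refine hsep p q ?_
    have := min_le_right (η1 / 4) (η2 / 7)
    linarith

/-- states of the recursion -/
structure ladder_St {X Y : Type} [MetricSpace X] [MetricSpace Y] (x : X) (y : Y) where
  φ : C(X, I)
  ψ : C(Y, I)
  d : ℝ
  hφ : Function.Surjective φ
  hψ : Function.Surjective ψ
  hx : φ x = 0
  hy : ψ y = 0
  hd : 0 < d

theorem ladder_next {X Y : Type} [MetricSpace X] [CompactSpace X] [MetricSpace Y] [CompactSpace Y]
    (x : X) (y : Y) (fx : Fine X x) (fy : Fine Y y) (lx : Lift X x) (ly : Lift Y y)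
    (n : ℕ) (S : ladder_St x y) :
    ∃ (S' : ladder_St x y) (k : C(I, I)),
      (∀ p, |(k (S'.φ p) : ℝ) - S.φ p| ≤ S.d) ∧ (∀ p, |(k (S'.ψ p) : ℝ) - S.ψ p| ≤ S.d) ∧
      (∀ s t : I, |(s : ℝ) - t| ≤ 3 * S'.d → |(k s : ℝ) - k t| ≤ S.d) ∧
      (Even n → ∀ p q, |(S'.φ p : ℝ) - S'.φ q| ≤ 6 * S'.d → dist p q < 1 / ((n : ℝ) + 1)) ∧
      (¬ Even n → ∀ p q, |(S'.ψ p : ℝ) - S'.ψ q| ≤ 6 * S'.d → dist p q < 1 / ((n : ℝ) + 1)) := by
  have hn : (0 : ℝ) < 1 / ((n : ℝ) + 1) := by positivity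
  by_cases hev : Even n
  · obtain ⟨φ1, ψ1, k, d1, a1, a2, a3, a4, a5, a6, a7, a8, a9⟩ :=
      ladder_step x y fx ly S.φ S.ψ S.d (1 / ((n : ℝ) + 1)) S.hφ S.hψ S.hx S.hy S.hd hn
    exact ⟨⟨φ1, ψ1, d1, a1, a2, a3, a4, a5⟩, k, a6, a7, a8, fun _ => a9, fun h => absurd hev h⟩
  · obtain ⟨ψ1, φ1, k, d1, a1, a2, a3, a4, a5, a6, a7, a8, a9⟩ :=
      ladder_step y x fy lx S.ψ S.φ S.d (1 / ((n : ℝ) + 1)) S.hψ S.hφ S.hy S.hx S.hd hn
    exact ⟨⟨φ1, ψ1, d1, a2, a1, a4, a3, a5⟩, k, a7, a6, a8, fun h => absurd h hev, fun _ => a9⟩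

/-- TARGET (H1) -/
theorem ladder {X Y : Type} [MetricSpace X] [CompactSpace X] [MetricSpace Y] [CompactSpace Y]
    (x : X) (y : Y) (fx : Fine X x) (fy : Fine Y y) (lx : Lift X x) (ly : Lift Y y) :
    ∃ h : X ≃ₜ Y, h x = y := by
  obtain ⟨φ0, b1, b2, -⟩ := fx 1 one_pos
  obtain ⟨ψ0, b3, b4, -⟩ := fy 1 one_pos
  choose nxt kk h1 h2 h3 h4 h5 using ladder_next x y fx fy lx ly
  let S : ℕ → ladder_St x y := fun n =>
    Nat.rec (⟨φ0, ψ0, 1, b2, b4, b1, b3, one_pos⟩ : ladder_St x y) (fun n s => nxt n s) n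
  have hS : ∀ n, S (n + 1) = nxt n (S n) := fun n => rfl
  refine ladder_limit x y (fun n => (S n).φ) (fun n => (S n).ψ) (fun n => kk n (S n))
    (fun n => (S n).d) (fun n => (S n).hd) (fun n => (S n).hφ) (fun n => (S n).hψ)
    (fun n p => ?_) (fun n p => ?_) (fun n s t hst => ?_) (fun ε hε => ?_) (fun ε hε => ?_)
    (fun n => (S n).hx) (fun n => (S n).hy)
  · simp only [hS]; exact h1 n (S n) p
  · simp only [hS]; exact h2 n (S n) p
  · simp only [hS] at hst; exact h3 n (S n) s t hst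
  · obtain ⟨m, hm⟩ := exists_nat_one_div_lt hε
    refine ⟨2 * m + 1, fun p p' hpp => ?_⟩
    simp only [hS] at hpp
    have h := h4 (2 * m) (S (2 * m)) (even_two_mul m) p p' hpp
    refine h.trans_le ?_
    refine le_trans ?_ hm.le
    apply one_div_le_one_div_of_le (by positivity)
    push_cast
    have : (0 : ℝ) ≤ m := Nat.cast_nonneg m
    linarith
  · obtain ⟨m, hm⟩ := exists_nat_one_div_lt hε
    refine ⟨2 * m + 1 + 1, fun p p' hpp => ?_⟩
    simp only [hS (2 * m + 1)] at hpp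
    have hodd : ¬ Even (2 * m + 1) := by
      rw [Nat.not_even_iff_odd]; exact odd_two_mul_add_one m
    have h := h5 (2 * m + 1) (S (2 * m + 1)) hodd p p' hpp
    refine h.trans_le ?_
    refine le_trans ?_ hm.le
    apply one_div_le_one_div_of_le (by positivity)
    push_cast
    have : (0 : ℝ) ≤ m := Nat.cast_nonneg m
    linarith

end Pool.Agent.H300.PH
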