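import Pool.Agent.H300.PH.Defs

set_option autoImplicit false

open Set Topology unitInterval

namespace Pool.Agent.H300.PH

theorem kz_zero (l : List ℝ) (hl : ∀ c ∈ l, 0 ≤ c) : kz l 0 = 0 := by
  cases l with
  | nil => rfl
  | cons c l =>
    have h : (0 : ℝ) ≤ c := hl c (by simp)
    simp only [kz]
    rw [if_pos h]

theorem kz_lip (l : List ℝ) (hl : ∀ c ∈ l, 0 ≤ c) :
    ∀ u v, 0 ≤ u → 0 ≤ v → |kz l u - kz l v| ≤ |u - v| := by
  induction l with
  | nil =>
    intro u v _ _
    simp only [kz, sub_self, abs_zero]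
    exact abs_nonneg _
  | cons c l ih =>
    have hl' : ∀ c ∈ l, 0 ≤ c := fun x hx => hl x (List.mem_cons_of_mem _ hx)
    have ih' := ih hl'
    have h0 := kz_zero l hl'
    intro u v hu hv
    simp only [kz]
    by_cases h1 : u ≤ c
    · rw [if_pos h1]
      by_cases h2 : v ≤ c
      · rw [if_pos h2]
      · rw [if_neg h2]
        push Not at h2
        have h3 := ih' (v - c) 0 (by linarith) le_rfl
        rw [h0, sub_zero, sub_zero, abs_of_pos (show 0 < v - c by linarith)] at h3
        have h4 := abs_le.mp h3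
        rw [abs_of_nonpos (show u - v ≤ 0 by linarith), abs_le]
        constructor <;> linarith
    · rw [if_neg h1]
      push Not at h1
      by_cases h2 : v ≤ c
      · rw [if_pos h2]
        have h3 := ih' (u - c) 0 (by linarith) le_rfl
        rw [h0, sub_zero, sub_zero, abs_of_pos (show 0 < u - c by linarith)] at h3
        have h4 := abs_le.mp h3
        rw [abs_of_nonneg (show 0 ≤ u - v by linarith), abs_le]
        constructor <;> linarith
      · rw [if_neg h2]
        push Not at h2
        have h3 := ih' (v - c) (u - c) (by linarith) (by linarith)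
        have e1 : c - kz l (u - c) - (c - kz l (v - c)) = kz l (v - c) - kz l (u - c) := by ring
        have e2 : v - c - (u - c) = v - u := by ring
        rw [e1, abs_sub_comm u v]
        rw [e2] at h3
        exact h3

theorem kz_decomp (p q : ℝ) (rest : List ℝ) (h : q ≤ p) :
    (∃ (pre : List ℝ) (a b c : ℝ) (post : List ℝ),
      p :: q :: rest = pre ++ a :: b :: c :: post ∧ b ≤ a ∧ b ≤ c) ∨
    (∃ (pre : List ℝ) (a b : ℝ), p :: q :: rest = pre ++ [a, b] ∧ b ≤ a) := by
  induction rest generalizing p q with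
  | nil => exact Or.inr ⟨[], p, q, rfl, h⟩
  | cons r post ih =>
    by_cases hqr : q ≤ r
    · exact Or.inl ⟨[], p, q, r, post, rfl, h, hqr⟩
    · push Not at hqr
      rcases ih q r hqr.le with ⟨pre, a, b, c, post', h1, h2, h3⟩ | ⟨pre, a, b, h1, h2⟩
      · left
        exact ⟨p :: pre, a, b, c, post', by rw [h1]; rfl, h2, h3⟩
      · right
        exact ⟨p :: pre, a, b, by rw [h1]; rfl, h2⟩

theorem nf_image {a b T : ℝ} (ha : 0 ≤ a) (hab : a ≤ b) (hb : b ≤ T) :
    nf a b '' Icc 0 (T + 2 * (b - a)) = Icc 0 T := by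
  ext y
  constructor
  · rintro ⟨u, ⟨hu0, hu1⟩, rfl⟩
    unfold nf
    split_ifs with h1 h2
    · exact ⟨hu0, by linarith⟩
    · push Not at h1
      exact ⟨by linarith, by linarith⟩
    · push Not at h1 h2
      exact ⟨by linarith, by linarith⟩
  · rintro ⟨h0, h1⟩
    by_cases hyb : y ≤ b
    · refine ⟨y, ⟨h0, by linarith⟩, ?_⟩
      unfold nf
      rw [if_pos hyb]
    · push Not at hyb
      refine ⟨y + 2 * (b - a), ⟨by linarith, by linarith⟩, ?_⟩
      unfold nf
      rw [if_neg (by linarith), if_neg (by linarith)]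
      ring

theorem ef_image {b q : ℝ} (hq : 0 ≤ q) (hqb : q ≤ b) :
    ef b '' Icc 0 (b + q) = Icc 0 b := by
  ext y
  constructor
  · rintro ⟨u, ⟨hu0, hu1⟩, rfl⟩
    unfold ef
    split_ifs with h1
    · exact ⟨hu0, h1⟩
    · push Not at h1
      exact ⟨by linarith, by linarith⟩
  · rintro ⟨h0, h1⟩
    refine ⟨y, ⟨h0, by linarith⟩, ?_⟩
    unfold ef
    rw [if_pos h1]

end Pool.Agent.H300.PH
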