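import Pool.Agent.H300.PH.K1

set_option autoImplicit false

open Set Topology unitInterval

namespace Pool.Agent.H300.PH

theorem kz_cons (c : ℝ) (l : List ℝ) (u : ℝ) :
    kz (c :: l) u = if u ≤ c then u else c - kz l (u - c) := rfl

theorem kz_cons_add (d : ℝ) (l : List ℝ) (hl : ∀ c ∈ l, 0 ≤ c) (v : ℝ) (hv : 0 ≤ v) :
    kz (d :: l) (d + v) = d - kz l v := by
  rw [kz_cons]
  rcases eq_or_lt_of_le hv with h | h
  · rw [← h, kz_zero l hl, add_zero, if_pos le_rfl, sub_zero]
  · rw [if_neg (by linarith), add_sub_cancel_left]

/-- TARGET 1 -/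
theorem kz_nf (pre : List ℝ) (a b c : ℝ) (post : List ℝ) (hpre : ∀ d ∈ pre, 0 ≤ d)
    (hpost : ∀ d ∈ post, 0 ≤ d) (hb : 0 ≤ b) (hba : b ≤ a) (hbc : b ≤ c) :
    ∀ u, 0 ≤ u → kz (pre ++ a :: b :: c :: post) u =
      kz (pre ++ (a - b + c) :: post) (nf (pre.sum + a - b) (pre.sum + a) u) := by
  induction pre with
  | nil =>
    intro u hu
    rw [List.nil_append, List.nil_append, List.sum_nil, zero_add]
    unfold nf
    by_cases h1 : u ≤ a
    · rw [if_pos h1, kz_cons, if_pos h1, kz_cons, if_pos (by linarith)]
    · rw [if_neg h1]
      push Not at h1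
      by_cases h2 : u ≤ 2 * a - (a - b)
      · rw [if_pos h2, kz_cons, if_neg (by linarith), kz_cons, if_pos (by linarith), kz_cons,
          if_pos (by linarith)]
        ring
      · rw [if_neg h2]
        push Not at h2
        rw [kz_cons, if_neg (by linarith), kz_cons, if_neg (by linarith), kz_cons, kz_cons]
        by_cases h3 : u ≤ a + b + c
        · rw [if_pos (by linarith), if_pos (by linarith)]
          ring
        · push Not at h3
          rw [if_neg (by linarith), if_neg (by linarith)]
          have e : u - a - b - c = u - 2 * (a - (a - b)) - (a - b + c) := by ring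
          rw [e]
          ring
  | cons d pre1 ih =>
    have hd : 0 ≤ d := hpre d List.mem_cons_self
    have hpre1 : ∀ d ∈ pre1, 0 ≤ d := fun x hx => hpre x (List.mem_cons_of_mem _ hx)
    have hs : 0 ≤ pre1.sum := List.sum_nonneg hpre1
    intro u hu
    rw [List.cons_append, List.cons_append, List.sum_cons]
    by_cases h1 : u ≤ d
    · have h2 : nf (d + pre1.sum + a - b) (d + pre1.sum + a) u = u := by
        unfold nf
        rw [if_pos (by linarith)]
      rw [h2, kz_cons, if_pos h1, kz_cons, if_pos h1]
    · push Not at h1
      have h2 : nf (d + pre1.sum + a - b) (d + pre1.sum + a) u =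
          d + nf (pre1.sum + a - b) (pre1.sum + a) (u - d) := by
        unfold nf
        by_cases h3 : u ≤ d + pre1.sum + a
        · rw [if_pos h3, if_pos (by linarith)]
          ring
        · push Not at h3
          by_cases h4 : u ≤ d + pre1.sum + a + b
          · rw [if_neg (by linarith), if_pos (by linarith), if_neg (by linarith),
              if_pos (by linarith)]
            ring
          · push Not at h4
            rw [if_neg (by linarith), if_neg (by linarith), if_neg (by linarith),
              if_neg (by linarith)]
            ring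
      have h5 : 0 ≤ nf (pre1.sum + a - b) (pre1.sum + a) (u - d) := by
        unfold nf
        split_ifs <;> linarith
      have hL : ∀ x ∈ pre1 ++ (a - b + c) :: post, 0 ≤ x := by
        intro x hx
        rw [List.mem_append, List.mem_cons] at hx
        rcases hx with hx | hx | hx
        · exact hpre1 x hx
        · rw [hx]
          linarith
        · exact hpost x hx
      rw [h2, kz_cons_add d _ hL _ h5, kz_cons, if_neg (by linarith), ih hpre1 (u - d)
        (by linarith)]

/-- TARGET 2 -/
theorem kz_ef (pre : List ℝ) (a b : ℝ) (hpre : ∀ d ∈ pre, 0 ≤ d) (hb : 0 ≤ b) (hba : b ≤ a) :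
    ∀ u, 0 ≤ u → u ≤ pre.sum + a + b → kz (pre ++ [a, b]) u =
      kz (pre ++ [a]) (ef (pre.sum + a) u) := by
  induction pre with
  | nil =>
    intro u hu hu2
    rw [List.sum_nil, zero_add] at hu2
    rw [List.nil_append, List.nil_append, List.sum_nil, zero_add]
    unfold ef
    by_cases h1 : u ≤ a
    · rw [if_pos h1, kz_cons, if_pos h1, kz_cons, if_pos h1]
    · push Not at h1
      rw [if_neg (by linarith), kz_cons, if_neg (by linarith), kz_cons, if_pos (by linarith),
        kz_cons, if_pos (by linarith)]
      ring
  | cons d pre1 ih =>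
    have hd : 0 ≤ d := hpre d List.mem_cons_self
    have hpre1 : ∀ d ∈ pre1, 0 ≤ d := fun x hx => hpre x (List.mem_cons_of_mem _ hx)
    have hs : 0 ≤ pre1.sum := List.sum_nonneg hpre1
    intro u hu hu2
    rw [List.sum_cons] at hu2
    rw [List.cons_append, List.cons_append, List.sum_cons]
    by_cases h1 : u ≤ d
    · have h2 : ef (d + pre1.sum + a) u = u := by
        unfold ef
        rw [if_pos (by linarith)]
      rw [h2, kz_cons, if_pos h1, kz_cons, if_pos h1]
    · push Not at h1
      have h2 : ef (d + pre1.sum + a) u = d + ef (pre1.sum + a) (u - d) := by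
        unfold ef
        by_cases h3 : u ≤ d + pre1.sum + a
        · rw [if_pos h3, if_pos (by linarith)]
          ring
        · push Not at h3
          rw [if_neg (by linarith), if_neg (by linarith)]
          ring
      have h5 : 0 ≤ ef (pre1.sum + a) (u - d) := by
        unfold ef
        split_ifs <;> linarith
      have hL : ∀ x ∈ pre1 ++ [a], 0 ≤ x := by
        intro x hx
        rw [List.mem_append, List.mem_singleton] at hx
        rcases hx with hx | hx
        · exact hpre1 x hx
        · rw [hx]
          linarith
      rw [h2, kz_cons_add d _ hL _ h5, kz_cons, if_neg (by linarith), ih hpre1 (u - d)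
        (by linarith) (by linarith)]

end Pool.Agent.H300.PH
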