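import Pool.Agent.H300.PH.NF
import Pool.Agent.H300.PH.EF
import Pool.Agent.H300.PH.K2

set_option autoImplicit false

open Set Topology unitInterval

namespace Pool.Agent.H300.PH

theorem lift_kz_combine {X : Type} [TopologicalSpace X] [CompactSpace X] [T2Space X]
    [ConnectedSpace X] {x : X} (l l1 : List ℝ) (hl1 : ∀ c ∈ l1, 0 ≤ c)
    (f : ℝ → ℝ)
    (hk : ∀ u ∈ Icc 0 l.sum, kz l u = kz l1 (f u))
    (him : f '' Icc 0 l.sum = Icc 0 l1.sum)
    (hpos : ∀ u ∈ Icc 0 l.sum, 0 ≤ kz l u)
    (IH : (∀ u ∈ Icc 0 l1.sum, 0 ≤ kz l1 u) → ∀ φ : C(X, ℝ), φ x = 0 →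
      range φ = kz l1 '' Icc 0 l1.sum → ∀ ε : ℝ, 0 < ε →
      ∃ ψ : C(X, ℝ), ψ x = 0 ∧ range ψ = Icc 0 l1.sum ∧ ∀ p, |kz l1 (ψ p) - φ p| ≤ ε)
    (fold : ∀ φ : C(X, ℝ), φ x = 0 → range φ = Icc 0 l1.sum → ∀ ε : ℝ, 0 < ε →
      ∃ ψ : C(X, ℝ), ψ x = 0 ∧ range ψ = Icc 0 l.sum ∧ ∀ p, |f (ψ p) - φ p| ≤ ε)
    (φ : C(X, ℝ)) (hx : φ x = 0) (hr : range φ = kz l '' Icc 0 l.sum) (ε : ℝ) (hε : 0 < ε) :
    ∃ ψ : C(X, ℝ), ψ x = 0 ∧ range ψ = Icc 0 l.sum ∧ ∀ p, |kz l (ψ p) - φ p| ≤ ε := by
  have hpos1 : ∀ v ∈ Icc 0 l1.sum, 0 ≤ kz l1 v := by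
    intro v hv
    rw [← him] at hv
    obtain ⟨u, hu, rfl⟩ := hv
    rw [← hk u hu]; exact hpos u hu
  have hr1 : range φ = kz l1 '' Icc 0 l1.sum := by
    rw [hr, ← him]
    ext y
    constructor
    · rintro ⟨u, hu, rfl⟩
      exact ⟨f u, ⟨u, hu, rfl⟩, (hk u hu).symm⟩
    · rintro ⟨_, ⟨u, hu, rfl⟩, rfl⟩
      exact ⟨u, hu, hk u hu⟩
  obtain ⟨ψ1, h1, h2, h3⟩ := IH hpos1 φ hx hr1 (ε / 2) (by linarith)
  obtain ⟨ψ, g1, g2, g3⟩ := fold ψ1 h1 h2 (ε / 2) (by linarith)
  refine ⟨ψ, g1, g2, fun p => ?_⟩
  have hp : ψ p ∈ Icc 0 l.sum := by rw [← g2]; exact mem_range_self p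
  have hp1 : ψ1 p ∈ Icc 0 l1.sum := by rw [← h2]; exact mem_range_self p
  have hfp : f (ψ p) ∈ Icc 0 l1.sum := by rw [← him]; exact ⟨_, hp, rfl⟩
  rw [hk _ hp]
  have e1 := kz_lip l1 hl1 (f (ψ p)) (ψ1 p) hfp.1 hp1.1
  have e2 := g3 p
  have e3 := h3 p
  have e4 : kz l1 (f (ψ p)) - φ p = (kz l1 (f (ψ p)) - kz l1 (ψ1 p)) + (kz l1 (ψ1 p) - φ p) := by ring
  rw [e4]
  have e5 := abs_add_le (kz l1 (f (ψ p)) - kz l1 (ψ1 p)) (kz l1 (ψ1 p) - φ p)
  linarith

/-- TARGET: lifting through a zigzag -/
theorem lift_kz {X : Type} [TopologicalSpace X] [CompactSpace X] [T2Space X] [ConnectedSpace X]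
    (hX : HI X) {x : X} : ∀ (n : ℕ) (l : List ℝ), l.length ≤ n → (∀ c ∈ l, 0 ≤ c) →
      (∀ u ∈ Icc 0 l.sum, 0 ≤ kz l u) → ∀ φ : C(X, ℝ), φ x = 0 →
      range φ = kz l '' Icc 0 l.sum → ∀ ε : ℝ, 0 < ε →
      ∃ ψ : C(X, ℝ), ψ x = 0 ∧ range ψ = Icc 0 l.sum ∧ ∀ p, |kz l (ψ p) - φ p| ≤ ε := by
  -- the easy case
  have easy : ∀ l : List ℝ, (∀ u ∈ Icc 0 l.sum, kz l u = u) → ∀ φ : C(X, ℝ), φ x = 0 →
      range φ = kz l '' Icc 0 l.sum → ∀ ε : ℝ, 0 < ε →
      ∃ ψ : C(X, ℝ), ψ x = 0 ∧ range ψ = Icc 0 l.sum ∧ ∀ p, |kz l (ψ p) - φ p| ≤ ε := by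
    intro l hl φ hx hr ε hε
    have hr' : range φ = Icc 0 l.sum := by
      rw [hr]
      ext y
      constructor
      · rintro ⟨u, hu, rfl⟩
        rw [hl u hu]; exact hu
      · intro hy
        exact ⟨y, hy, hl y hy⟩
    refine ⟨φ, hx, hr', fun p => ?_⟩
    rw [hl (φ p) (by rw [← hr']; exact mem_range_self p), sub_self, abs_zero]
    exact hε.le
  intro n
  induction n with
  | zero =>
    intro l hlen _ _ φ hx hr ε hε
    have : l = [] := List.length_eq_zero_iff.mp (Nat.le_zero.mp hlen)
    subst this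
    refine easy [] ?_ φ hx hr ε hε
    intro u hu
    simp only [List.sum_nil, Icc_self, mem_singleton_iff] at hu
    rw [hu]; rfl
  | succ n ih =>
    intro l hlen hl hpos φ hx hr ε hε
    rcases l with _ | ⟨p, _ | ⟨q, rest⟩⟩
    · refine easy [] ?_ φ hx hr ε hε
      intro u hu
      simp only [List.sum_nil, Icc_self, mem_singleton_iff] at hu
      rw [hu]; rfl
    · refine easy [p] ?_ φ hx hr ε hε
      intro u hu
      simp only [List.sum_singleton] at hu
      show (if u ≤ p then u else p - kz [] (u - p)) = u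
      rw [if_pos hu.2]
    · have hp0 : 0 ≤ p := hl p (by simp)
      have hq0 : 0 ≤ q := hl q (by simp)
      have hrest : 0 ≤ rest.sum := List.sum_nonneg fun c hc => hl c (by simp [hc])
      have hqp : q ≤ p := by
        rcases hq0.lt_or_eq with hq | hq
        · have h1 := hpos (p + q) ⟨by linarith, by
            simp only [List.sum_cons]; linarith⟩
          have h2 : kz (p :: q :: rest) (p + q) = p - q := by
            show (if p + q ≤ p then p + q else p - kz (q :: rest) (p + q - p)) = p - q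
            rw [if_neg (by linarith), add_sub_cancel_left]
            show p - (if q ≤ q then q else q - kz rest (q - q)) = p - q
            rw [if_pos le_rfl]
          rw [h2] at h1; linarith
        · rw [← hq]; exact hp0
      rcases kz_decomp p q rest hqp with ⟨pre, a, b, c, post, he, hba, hbc⟩ | ⟨pre, a, b, he, hba⟩
      · rw [he] at hlen hl hpos hr ⊢
        have hpre : ∀ d ∈ pre, 0 ≤ d := fun d hd => hl d (by simp [hd])
        have hpost : ∀ d ∈ post, 0 ≤ d := fun d hd => hl d (by simp [hd])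
        have ha0 : 0 ≤ a := hl a (by simp)
        have hb0 : 0 ≤ b := hl b (by simp)
        have hpres : 0 ≤ pre.sum := List.sum_nonneg hpre
        have hposts : 0 ≤ post.sum := List.sum_nonneg hpost
        have hsum : (pre ++ a :: b :: c :: post).sum =
            (pre ++ (a - b + c) :: post).sum + 2 * ((pre.sum + a) - (pre.sum + a - b)) := by
          simp only [List.sum_append, List.sum_cons]; ring
        have hB : pre.sum + a ≤ (pre ++ (a - b + c) :: post).sum := by
          simp only [List.sum_append, List.sum_cons]; linarith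
        have hl1 : ∀ d ∈ pre ++ (a - b + c) :: post, 0 ≤ d := by
          intro d hd
          rcases List.mem_append.mp hd with h | h
          · exact hpre d h
          · rcases List.mem_cons.mp h with h | h
            · rw [h]; linarith
            · exact hpost d h
        have hlen1 : (pre ++ (a - b + c) :: post).length ≤ n := by
          simp only [List.length_append, List.length_cons] at hlen ⊢; omega
        refine lift_kz_combine (pre ++ a :: b :: c :: post) (pre ++ (a - b + c) :: post) hl1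
          (nf (pre.sum + a - b) (pre.sum + a))
          (fun u hu => kz_nf pre a b c post hpre hpost hb0 hba hbc u hu.1) ?_ hpos
          (fun h => ih _ hlen1 hl1 h) ?_ φ hx hr ε hε
        · rw [hsum]
          exact nf_image (by linarith) (by linarith) hB
        · intro φ' hx' hr' ε' hε'
          rcases hb0.lt_or_eq with hb | hb
          · rw [hsum]
            exact nfold hX (by linarith) (by linarith) hB φ' hx' hr' hε'
          · refine ⟨φ', hx', ?_, fun p => ?_⟩
            · rw [hr', hsum]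
              congr 1
              rw [← hb]; ring
            · have : nf (pre.sum + a - b) (pre.sum + a) (φ' p) = φ' p := by
                unfold nf
                rw [← hb]
                split_ifs with h1 h2
                · rfl
                · linarith
                · ring
              rw [this, sub_self, abs_zero]; exact hε'.le
      · rw [he] at hlen hl hpos hr ⊢
        have hpre : ∀ d ∈ pre, 0 ≤ d := fun d hd => hl d (by simp [hd])
        have ha0 : 0 ≤ a := hl a (by simp)
        have hb0 : 0 ≤ b := hl b (by simp)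
        have hpres : 0 ≤ pre.sum := List.sum_nonneg hpre
        have hsum : (pre ++ [a, b]).sum = pre.sum + a + b := by
          simp only [List.sum_append, List.sum_cons, List.sum_nil]; ring
        have hsum1 : (pre ++ [a]).sum = pre.sum + a := by
          simp only [List.sum_append, List.sum_cons, List.sum_nil]; ring
        have hl1 : ∀ d ∈ pre ++ [a], 0 ≤ d := by
          intro d hd
          rcases List.mem_append.mp hd with h | h
          · exact hpre d h
          · rw [List.mem_singleton.mp h]; exact ha0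
        have hlen1 : (pre ++ [a]).length ≤ n := by
          simp only [List.length_append, List.length_cons, List.length_nil] at hlen ⊢; omega
        refine lift_kz_combine (pre ++ [a, b]) (pre ++ [a]) hl1
          (ef (pre.sum + a))
          (fun u hu => kz_ef pre a b hpre hb0 hba u hu.1 (by rw [← hsum]; exact hu.2)) ?_ hpos
          (fun h => ih _ hlen1 hl1 h) ?_ φ hx hr ε hε
        · rw [hsum, hsum1]
          exact ef_image hb0 (by linarith)
        · intro φ' hx' hr' ε' hε'
          rw [hsum1] at hr'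
          rw [hsum]
          rcases hb0.lt_or_eq with hb | hb
          · exact efold hX hb (by linarith) φ' hx' hr' hε'
          · refine ⟨φ', hx', ?_, fun p => ?_⟩
            · rw [hr', ← hb, add_zero]
            · have hp : φ' p ∈ Icc 0 (pre.sum + a) := by rw [← hr']; exact mem_range_self p
              have : ef (pre.sum + a) (φ' p) = φ' p := by
                unfold ef
                rw [if_pos hp.2]
              rw [this, sub_self, abs_zero]; exact hε'.le

end Pool.Agent.H300.PH
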