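import Pool.Agent.H300.PH.Defs
import Pool.Agent.Helper162.Arc.PA

set_option autoImplicit false

open Set Topology unitInterval

namespace Pool.Agent.H300.PH

open Pool.Agent.Helper162.Arc

theorem pa_HI : HI PA := by
  intro C D hC hD hC2 hD2 hne
  by_contra hcon
  push Not at hcon
  obtain ⟨h1, h2⟩ := hcon
  obtain ⟨z, hzC, hzD⟩ := hne
  have hc : IsContinuum (C ∪ D) :=
    ⟨(hC.union hD).isCompact, ⟨⟨z, Or.inl hzC⟩, hC2.union z hzC hzD hD2⟩⟩
  apply pa_hi hc
  refine ⟨C, D, ⟨hC.isCompact, ⟨z, hzC⟩, hC2⟩, ⟨hD.isCompact, ⟨z, hzD⟩, hD2⟩,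
    subset_union_left, subset_union_right, ?_, ?_, rfl⟩
  · intro h
    exact h2 (by rw [h]; exact subset_union_right)
  · intro h
    exact h1 (by rw [h]; exact subset_union_left)

/-- fine maps of `PA` -/
theorem pa_chain : letI := TopologicalSpace.metrizableSpaceMetric PA
    ∀ ε : ℝ, 0 < ε → ∃ φ : C(PA, ℝ), ∀ p q : PA, φ p = φ q → dist p q < ε := by
  letI := TopologicalSpace.metrizableSpaceMetric PA
  intro ε hε
  by_contra hcon
  push Not at hcon
  let E : ℕ → Set (PA × PA) := fun n => {z | z.1.1 n = z.2.1 n ∧ ε ≤ dist z.1 z.2}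
  have hcl : ∀ n, IsClosed (E n) := by
    intro n
    refine IsClosed.inter ?_ ?_
    · exact isClosed_eq ((continuous_coord n).comp continuous_fst)
        ((continuous_coord n).comp continuous_snd)
    · exact isClosed_le continuous_const (continuous_fst.dist continuous_snd)
  have hne : ∀ n, (E n).Nonempty := by
    intro n
    obtain ⟨p, q, h1, h2⟩ := hcon ⟨fun x => (x.1 n : ℝ), continuous_coordR n⟩
    exact ⟨(p, q), Subtype.ext h1, h2⟩
  have hanti : ∀ i j, i ≤ j → E j ⊆ E i := by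
    intro i j hij z hz
    exact ⟨coord_le z.1.2 z.2.2 hij hz.1, hz.2⟩
  obtain ⟨z, hz⟩ := IsCompact.nonempty_iInter_of_directed_nonempty_isCompact_isClosed E
    (fun i j => ⟨max i j, hanti _ _ (le_max_left _ _), hanti _ _ (le_max_right _ _)⟩) hne
    (fun i => (hcl i).isCompact) hcl
  have h1 : z.1 = z.2 := by
    apply Subtype.ext
    funext n
    exact (mem_iInter.1 hz n).1
  have h2 := (mem_iInter.1 hz 0).2
  rw [h1, dist_self] at h2
  linarith

end Pool.Agent.H300.PH
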