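import Pool.Agent.H300.PH.AA
import Pool.Agent.H300.PH.H1
import Pool.Agent.H300.PH.EE
import Pool.Agent.H300.PH.PAF

set_option autoImplicit false

open Set Topology unitInterval

namespace Pool.Agent.H300.PH

open Pool.Agent.Helper162.Arc

/-- hereditarily indecomposable chainable continua: any point goes to any point -/
theorem hi_chainable_homeo {X Y : Type} [MetricSpace X] [CompactSpace X] [ConnectedSpace X]
    [Nontrivial X] [MetricSpace Y] [CompactSpace Y] [ConnectedSpace Y] [Nontrivial Y]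
    (hX : HI X) (hY : HI Y)
    (cX : ∀ ε : ℝ, 0 < ε → ∃ φ : C(X, ℝ), ∀ p q, φ p = φ q → dist p q < ε)
    (cY : ∀ ε : ℝ, 0 < ε → ∃ φ : C(Y, ℝ), ∀ p q, φ p = φ q → dist p q < ε) (x : X) (y : Y) :
    ∃ h : X ≃ₜ Y, h x = y :=
  ladder x y (fine_of_chainable hX cX x) (fine_of_chainable hY cY y)
    (fun φ k h1 h2 h3 h4 ε hε => liftA hX φ h1 h2 k h3 h4 hε)
    (fun φ k h1 h2 h3 h4 ε hε => liftA hY φ h1 h2 k h3 h4 hε)

/-- The pseudo-arc is homogeneous. -/
theorem pa_homog : ∀ x y : PA, ∃ h : PA ≃ₜ PA, h x = y := by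
  letI := TopologicalSpace.metrizableSpaceMetric PA
  intro x y
  exact hi_chainable_homeo pa_HI pa_HI pa_chain pa_chain x y

end Pool.Agent.H300.PH
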