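import Pool.Agent.H300.PH.N1

set_option autoImplicit false

open Set Topology unitInterval

namespace Pool.Agent.H300.PH

theorem sepN_closed_comp {X : Type} [TopologicalSpace X] {Y : Set X} (hY : IsClosed Y) (p : X) :
    IsClosed (connectedComponentIn Y p) := by
  by_cases hp : p ∈ Y
  · have h1 : closure (connectedComponentIn Y p) ⊆ connectedComponentIn Y p := by
      apply IsPreconnected.subset_connectedComponentIn
      · exact isPreconnected_connectedComponentIn.closure
      · exact subset_closure (mem_connectedComponentIn hp)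
      · exact hY.closure_subset_iff.mpr (connectedComponentIn_subset Y p)
    exact isClosed_of_closure_subset h1
  · rw [connectedComponentIn_eq_empty hp]
    exact isClosed_empty

/-- TARGET (N), Krasinkiewicz-Minc -/
theorem sepN {X : Type} [TopologicalSpace X] [CompactSpace X] [T2Space X] (hX : HI X)
    {A B U V : Set X} (hA : IsClosed A) (hB : IsClosed B) (hAB : Disjoint A B)
    (hU : IsOpen U) (hV : IsOpen V) (hAU : A ⊆ U) (hBV : B ⊆ V) :
    ∃ X0 X1 X2 : Set X, IsClosed X0 ∧ IsClosed X1 ∧ IsClosed X2 ∧ X0 ∪ X1 ∪ X2 = univ ∧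
      A ⊆ X0 ∧ B ⊆ X2 ∧ X0 ∩ X2 = ∅ ∧ X0 ∩ X1 ⊆ V ∧ X1 ∩ X2 ⊆ U := by
  have hd : ∀ x, x ∈ A → x ∈ B → False := fun x h1 h2 => Set.disjoint_left.mp hAB h1 h2
  have hY : IsClosed (V \ A)ᶜ := (hV.sdiff hA).isClosed_compl
  have hZ : IsClosed (U \ B)ᶜ := (hU.sdiff hB).isClosed_compl
  set Y : Set X := (V \ A)ᶜ with hYdef
  set Z : Set X := (U \ B)ᶜ with hZdef
  have hAY : A ⊆ Y := fun x hx h => h.2 hx
  have hBZ : B ⊆ Z := fun x hx h => h.2 hx
  have hAZ : ∀ x ∈ A, x ∉ Z := fun x hx h => h ⟨hAU hx, fun hb => hd x hx hb⟩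
  have hBY : ∀ x ∈ B, x ∉ Y := fun x hx h => h ⟨hBV hx, fun ha => hd x ha hx⟩
  -- the set `R`
  set R : Set X := {p | p ∈ Z ∧ (connectedComponentIn Z p ∩ B).Nonempty} with hRdef
  have hQR : ∀ p ∈ Y, (connectedComponentIn Y p ∩ A).Nonempty → p ∉ R := by
    rintro p hp ⟨a, ha1, ha2⟩ ⟨hpZ, b, hb1, hb2⟩
    rcases hX (connectedComponentIn Y p) (connectedComponentIn Z p) (sepN_closed_comp hY p)
      (sepN_closed_comp hZ p) isPreconnected_connectedComponentIn
      isPreconnected_connectedComponentIn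
      ⟨p, mem_connectedComponentIn hp, mem_connectedComponentIn hpZ⟩ with h | h
    · exact hAZ a ha2 (connectedComponentIn_subset Z p (h ha1))
    · exact hBY b hb2 (connectedComponentIn_subset Y p (h hb1))
  have hRclosed : IsClosed R := by
    rw [← isOpen_compl_iff, isOpen_iff_forall_mem_open]
    intro p hp
    by_cases hpZ : p ∈ Z
    · have h1 : Disjoint (connectedComponentIn Z p) B := by
        rw [Set.disjoint_left]
        intro x hx1 hx2
        exact hp ⟨hpZ, x, hx1, hx2⟩
      obtain ⟨Y0, h2, h3, h4, h5, h6⟩ := clopen_sep hZ (isClosed_singleton (x := p))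
        (Set.singleton_subset_iff.mpr hpZ) hB (by
          intro q hq
          rw [Set.mem_singleton_iff] at hq
          rw [hq]
          exact h1)
      refine ⟨(Z \ Y0)ᶜ, ?_, h4.isOpen_compl, fun h => h.2 (h5 rfl)⟩
      rintro q hq ⟨hqZ, b, hb1, hb2⟩
      have hqY0 : q ∈ Y0 := by
        by_contra hcon
        exact hq ⟨hqZ, hcon⟩
      -- the component of q in Z lies inside Y0
      have h7 : connectedComponentIn Z q ⊆ Y0 := by
        have hpre : IsPreconnected (connectedComponentIn Z q) := isPreconnected_connectedComponentIn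
        by_contra hcon
        obtain ⟨r, hr1, hr2⟩ := Set.not_subset.mp hcon
        have h8 := isPreconnected_closed_iff.mp hpre Y0 (Z \ Y0) h3 h4
          (by
            intro y hy
            have hyZ := connectedComponentIn_subset Z q hy
            by_cases h9 : y ∈ Y0
            · exact Or.inl h9
            · exact Or.inr ⟨hyZ, h9⟩)
          ⟨q, mem_connectedComponentIn hqZ, hqY0⟩
          ⟨r, hr1, connectedComponentIn_subset Z q hr1, hr2⟩
        obtain ⟨y, _, hy1, hy2⟩ := h8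
        exact hy2.2 hy1
      exact Set.disjoint_left.mp h6 (h7 hb1) hb2
    · refine ⟨Zᶜ, fun q hq hqR => hq hqR.1, hZ.isOpen_compl, hpZ⟩
  obtain ⟨Y0, hY0Y, hY0c, hYY0c, hAY0, hY0R⟩ := clopen_sep hY hA hAY hRclosed (by
    intro a ha
    rw [Set.disjoint_left]
    intro q hq
    have hqY : q ∈ Y := connectedComponentIn_subset Y a hq
    apply hQR q hqY
    refine ⟨a, ?_, ha⟩
    rw [← connectedComponentIn_eq hq]
    exact mem_connectedComponentIn (hAY ha))
  obtain ⟨Z2, hZ2Z, hZ2c, hZZ2c, hBZ2, hZ2Y0⟩ := clopen_sep hZ hB hBZ hY0c (by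
    intro b hb
    rw [Set.disjoint_left]
    intro q hq hqY0
    have hqZ : q ∈ Z := connectedComponentIn_subset Z b hq
    refine Set.disjoint_left.mp hY0R hqY0 ⟨hqZ, b, ?_, hb⟩
    rw [← connectedComponentIn_eq hq]
    exact mem_connectedComponentIn (hBZ hb))
  obtain ⟨O0, hO0, hY0O0, hclO0⟩ := normal_exists_closure_subset hY0c
    (hYY0c.union hZ2c).isOpen_compl (by
      intro x hx h
      rcases h with h | h
      · exact h.2 hx
      · exact Set.disjoint_left.mp hZ2Y0 h hx)
  obtain ⟨O2, hO2, hZ2O2, hclO2⟩ := normal_exists_closure_subset hZ2c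
    (hZZ2c.union (isClosed_closure (s := O0))).isOpen_compl (by
      intro x hx h
      rcases h with h | h
      · exact h.2 hx
      · exact hclO0 h (Or.inr hx))
  refine ⟨closure O0, (O0 ∪ O2)ᶜ, closure O2, isClosed_closure, (hO0.union hO2).isClosed_compl,
    isClosed_closure, ?_, ?_, ?_, ?_, ?_, ?_⟩
  · ext x
    simp only [Set.mem_union, Set.mem_compl_iff, Set.mem_univ, iff_true]
    by_cases h0 : x ∈ O0
    · exact Or.inl (Or.inl (subset_closure h0))
    · by_cases h2 : x ∈ O2
      · exact Or.inr (subset_closure h2)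
      · exact Or.inl (Or.inr (by tauto))
  · exact fun x hx => subset_closure (hY0O0 (hAY0 hx))
  · exact fun x hx => subset_closure (hZ2O2 (hBZ2 hx))
  · ext x
    simp only [Set.mem_inter_iff, Set.mem_empty_iff_false, iff_false]
    rintro ⟨h1, h2⟩
    exact hclO2 h2 (Or.inr h1)
  · rintro x ⟨hx0, hx1⟩
    by_contra hxV
    have hxY : x ∈ Y := fun h => hxV h.1
    have hxY0 : x ∈ Y0 := by
      by_contra hcon
      exact hclO0 hx0 (Or.inl ⟨hxY, hcon⟩)
    exact hx1 (Or.inl (hY0O0 hxY0))
  · rintro x ⟨hx1, hx2⟩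
    by_contra hxU
    have hxZ : x ∈ Z := fun h => hxU h.1
    have hxZ2 : x ∈ Z2 := by
      by_contra hcon
      exact hclO2 hx2 (Or.inl ⟨hxZ, hcon⟩)
    exact hx1 (Or.inr (hZ2O2 hxZ2))

end Pool.Agent.H300.PH
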