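import Pool.Agent.H300.PH.Defs

set_option autoImplicit false

open Set Topology unitInterval

namespace Pool.Agent.H300.PH

/-- (N1) In a compact Hausdorff space, inside a closed set `Y`, a closed set `A` can be separated by
a relatively clopen set from a closed set `R` that misses all components of `Y` at points of `A`. -/
theorem clopen_sep {X : Type} [TopologicalSpace X] [CompactSpace X] [T2Space X]
    {Y A R : Set X} (hY : IsClosed Y) (hA : IsClosed A) (hAY : A ⊆ Y) (hR : IsClosed R)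
    (h : ∀ p ∈ A, Disjoint (connectedComponentIn Y p) R) :
    ∃ Y0 : Set X, Y0 ⊆ Y ∧ IsClosed Y0 ∧ IsClosed (Y \ Y0) ∧ A ⊆ Y0 ∧ Disjoint Y0 R := by
  haveI : CompactSpace Y := isCompact_iff_compactSpace.mp hY.isCompact
  have hR' : IsClosed ((↑) ⁻¹' R : Set Y) := hR.preimage continuous_subtype_val
  have hA' : IsClosed ((↑) ⁻¹' A : Set Y) := hA.preimage continuous_subtype_val
  have key : ∀ p : Y, p ∈ ((↑) ⁻¹' A : Set Y) → ∃ W : Set Y, IsClopen W ∧ p ∈ W ∧
      Disjoint W ((↑) ⁻¹' R : Set Y) := by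
    intro p hp
    have h1 := h p hp
    rw [connectedComponentIn_eq_image p.2] at h1
    have h2 : ((↑) ⁻¹' R : Set Y) ∩ ⋂ s : {s : Set Y // IsClopen s ∧ p ∈ s}, (s : Set Y) = ∅ := by
      rw [← connectedComponent_eq_iInter_isClopen]
      rw [Set.eq_empty_iff_forall_notMem]
      rintro x ⟨hx1, hx2⟩
      exact Set.disjoint_left.mp h1 ⟨x, hx2, rfl⟩ hx1
    obtain ⟨u, hu⟩ := hR'.isCompact.elim_finite_subfamily_closed
      (fun s : {s : Set Y // IsClopen s ∧ p ∈ s} => (s : Set Y)) (fun s => s.2.1.isClosed) h2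
    refine ⟨⋂ i ∈ u, (i : Set Y), isClopen_biInter_finset fun i _ => i.2.1, ?_, ?_⟩
    · simp only [Set.mem_iInter]
      exact fun i _ => i.2.2
    · rw [Set.disjoint_iff_inter_eq_empty, Set.inter_comm]
      exact hu
  choose! W hW1 hW2 hW3 using key
  obtain ⟨t, ht1, ht2⟩ := hA'.isCompact.elim_nhds_subcover W
    (fun x hx => (hW1 x hx).isOpen.mem_nhds (hW2 x hx))
  have hcl : IsClopen (⋃ x ∈ t, W x) := isClopen_biUnion_finset fun x hx => hW1 x (ht1 x hx)
  have hemb := hY.isClosedEmbedding_subtypeVal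
  refine ⟨(↑) '' (⋃ x ∈ t, W x), ?_, ?_, ?_, ?_, ?_⟩
  · rintro _ ⟨x, _, rfl⟩
    exact x.2
  · exact hemb.isClosedMap _ hcl.isClosed
  · have e : Y \ (↑) '' (⋃ x ∈ t, W x) = (↑) '' (⋃ x ∈ t, W x)ᶜ := by
      ext z
      constructor
      · rintro ⟨hz1, hz2⟩
        refine ⟨⟨z, hz1⟩, ?_, rfl⟩
        intro hz3
        exact hz2 ⟨⟨z, hz1⟩, hz3, rfl⟩
      · rintro ⟨x, hx, rfl⟩
        refine ⟨x.2, ?_⟩
        rintro ⟨y, hy, hxy⟩
        rw [Subtype.val_injective hxy] at hy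
        exact hx hy
    rw [e]
    exact hemb.isClosedMap _ hcl.compl.isClosed
  · intro z hz
    exact ⟨⟨z, hAY hz⟩, ht2 hz, rfl⟩
  · rw [Set.disjoint_left]
    rintro _ ⟨x, hx, rfl⟩ hxR
    simp only [Set.mem_iUnion] at hx
    obtain ⟨y, hy, hxy⟩ := hx
    exact Set.disjoint_left.mp (hW3 y (ht1 y hy)) hxy hxR

end Pool.Agent.H300.PH
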