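import Pool.Agent.H300.PH.N

set_option autoImplicit false

open Set Topology unitInterval

namespace Pool.Agent.H300.PH

theorem nf_lip {a b : ℝ} (hab : a < b) (u v : ℝ) : |nf a b u - nf a b v| ≤ |u - v| := by
  have key : ∀ u v : ℝ, u ≤ v → |nf a b u - nf a b v| ≤ v - u := by
    intro u v huv
    unfold nf
    rw [abs_le]
    split_ifs <;> constructor <;> linarith
  rcases le_total u v with h | h
  · rw [abs_sub_comm u v, abs_of_nonneg (sub_nonneg.2 h)]
    exact key u v h
  · rw [abs_sub_comm, abs_of_nonneg (sub_nonneg.2 h)]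
    exact key v u h

/-- TARGET: lifting through an N-fold -/
theorem nfold {X : Type} [TopologicalSpace X] [CompactSpace X] [T2Space X] [ConnectedSpace X]
    (hX : HI X) {x : X} {T a b : ℝ} (ha : 0 ≤ a) (hab : a < b) (hb : b ≤ T) (φ : C(X, ℝ))
    (hx : φ x = 0) (hr : range φ = Icc 0 T) {ε : ℝ} (hε : 0 < ε) :
    ∃ ψ : C(X, ℝ), ψ x = 0 ∧ range ψ = Icc 0 (T + 2 * (b - a)) ∧ ∀ p, |nf a b (ψ p) - φ p| ≤ ε := by
  classical
  obtain ⟨e, he0, he1, he2⟩ : ∃ e : ℝ, 0 < e ∧ 20 * e ≤ ε ∧ 4 * e < b - a := by
    refine ⟨min (ε / 20) ((b - a) / 8), lt_min (by positivity) (by linarith), ?_, ?_⟩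
    · have := min_le_left (ε / 20) ((b - a) / 8); linarith
    · have := min_le_right (ε / 20) ((b - a) / 8); linarith
  have hφ0 : ∀ p, 0 ≤ φ p ∧ φ p ≤ T := fun p => by
    have : φ p ∈ Icc 0 T := hr ▸ mem_range_self p
    exact this
  obtain ⟨pT, hpT⟩ : ∃ p, φ p = T := by
    have : T ∈ range φ := by rw [hr]; exact ⟨by linarith, le_rfl⟩
    exact this
  obtain ⟨X0, X1, X2, h0, h1, h2, hcov, hA0, hB2, h02, h01, h12⟩ :=
    sepN hX (A := {p | φ p ≤ a}) (B := {p | b ≤ φ p}) (U := {p | φ p < a + e})
      (V := {p | b - e < φ p}) (isClosed_le φ.continuous continuous_const)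
      (isClosed_le continuous_const φ.continuous)
      (by
        rw [Set.disjoint_left]
        intro p hp hp'
        have h3 : φ p ≤ a := hp
        have h4 : b ≤ φ p := hp'
        linarith)
      (isOpen_lt φ.continuous continuous_const) (isOpen_lt continuous_const φ.continuous)
      (fun p hp => by
        have h3 : φ p ≤ a := hp
        show φ p < a + e
        linarith)
      (fun p hp => by
        have h3 : b ≤ φ p := hp
        show b - e < φ p
        linarith)
  set f0 : X → ℝ := fun p => min (φ p) (b - e) with hf0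
  set f1 : X → ℝ := fun p => 2 * (b - e) - max (a + e) (min (φ p) (b - e)) with hf1
  set f2 : X → ℝ := fun p => 2 * (b - a) - 4 * e + max (φ p) (a + e) with hf2
  have c0 : Continuous f0 := φ.continuous.min continuous_const
  have c1 : Continuous f1 :=
    continuous_const.sub (continuous_const.max (φ.continuous.min continuous_const))
  have c2 : Continuous f2 := continuous_const.add (φ.continuous.max continuous_const)
  set g : X → ℝ := fun p => if p ∈ X0 then f0 p else if p ∈ X1 then f1 p else f2 p with hg
  have g0 : ∀ p ∈ X0, g p = f0 p := fun p hp => if_pos hp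
  have hX1 : ∀ p ∈ X1, a < φ p ∧ φ p < b := by
    intro p hp
    constructor
    · by_contra hcon
      have h3 : φ p ≤ a := not_lt.1 hcon
      have h4 : b - e < φ p := h01 ⟨hA0 h3, hp⟩
      linarith
    · by_contra hcon
      have h3 : b ≤ φ p := not_lt.1 hcon
      have h4 : φ p < a + e := h12 ⟨hp, hB2 h3⟩
      linarith
  have hX0 : ∀ p ∈ X0, φ p < b := by
    intro p hp
    by_contra hcon
    have h3 : b ≤ φ p := not_lt.1 hcon
    have h4 : p ∈ X0 ∩ X2 := ⟨hp, hB2 h3⟩
    rw [h02] at h4
    exact h4
  have hX2 : ∀ p ∈ X2, a < φ p := by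
    intro p hp
    by_contra hcon
    have h3 : φ p ≤ a := not_lt.1 hcon
    have h4 : p ∈ X0 ∩ X2 := ⟨hA0 h3, hp⟩
    rw [h02] at h4
    exact h4
  have g1 : ∀ p ∈ X1, g p = f1 p := by
    intro p hp
    by_cases hp0 : p ∈ X0
    · rw [g0 p hp0]
      have h3 : b - e < φ p := h01 ⟨hp0, hp⟩
      simp only [hf0, hf1]
      rw [min_eq_right h3.le, max_eq_right (by linarith)]
      ring
    · simp only [hg]
      rw [if_neg hp0, if_pos hp]
  have g2 : ∀ p ∈ X2, g p = f2 p := by
    intro p hp
    have hp0 : p ∉ X0 := by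
      intro hp0
      have h4 : p ∈ X0 ∩ X2 := ⟨hp0, hp⟩
      rw [h02] at h4
      exact h4
    by_cases hp1 : p ∈ X1
    · rw [g1 p hp1]
      have h3 : φ p < a + e := h12 ⟨hp1, hp⟩
      simp only [hf1, hf2]
      rw [max_eq_right h3.le, min_eq_left (by linarith), max_eq_left h3.le]
      ring
    · simp only [hg]
      rw [if_neg hp0, if_neg hp1]
  have hcov' : ∀ p, p ∈ X0 ∨ p ∈ X1 ∨ p ∈ X2 := by
    intro p
    have : p ∈ X0 ∪ X1 ∪ X2 := by rw [hcov]; trivial
    rcases this with (h | h) | h
    · exact Or.inl h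
    · exact Or.inr (Or.inl h)
    · exact Or.inr (Or.inr h)
  have hgc : Continuous g := by
    rw [continuous_iff_isClosed]
    intro K hK
    have : g ⁻¹' K = (X0 ∩ f0 ⁻¹' K) ∪ (X1 ∩ f1 ⁻¹' K) ∪ (X2 ∩ f2 ⁻¹' K) := by
      ext p
      constructor
      · intro hp
        have hp' : g p ∈ K := hp
        rcases hcov' p with h | h | h
        · left; left; exact ⟨h, by rw [g0 p h] at hp'; exact hp'⟩
        · left; right; exact ⟨h, by rw [g1 p h] at hp'; exact hp'⟩
        · right; exact ⟨h, by rw [g2 p h] at hp'; exact hp'⟩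
      · rintro ((⟨h, hp⟩ | ⟨h, hp⟩) | ⟨h, hp⟩)
        · show g p ∈ K; rw [g0 p h]; exact hp
        · show g p ∈ K; rw [g1 p h]; exact hp
        · show g p ∈ K; rw [g2 p h]; exact hp
    rw [this]
    exact ((h0.inter (hK.preimage c0)).union (h1.inter (hK.preimage c1))).union
      (h2.inter (hK.preimage c2))
  set M : ℝ := T + 2 * (b - a) with hM
  have hM0 : 0 < M - 4 * e := by rw [hM]; linarith
  have hrange : ∀ p, 0 ≤ g p ∧ g p ≤ M - 4 * e := by
    intro p
    have h3 := hφ0 p
    rcases hcov' p with h | h | h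
    · rw [g0 p h]
      simp only [hf0]
      refine ⟨le_min h3.1 (by linarith), (min_le_right _ _).trans (by rw [hM]; linarith)⟩
    · rw [g1 p h]
      simp only [hf1]
      have h4 : max (a + e) (min (φ p) (b - e)) ≤ b - e :=
        max_le (by linarith) (min_le_right _ _)
      have h5 : a + e ≤ max (a + e) (min (φ p) (b - e)) := le_max_left _ _
      constructor
      · linarith
      · rw [hM]; linarith
    · rw [g2 p h]
      simp only [hf2]
      have h4 : max (φ p) (a + e) ≤ T := max_le h3.2 (by linarith)
      have h5 : a + e ≤ max (φ p) (a + e) := le_max_right _ _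
      constructor
      · linarith
      · rw [hM]; linarith
  have hclose : ∀ p, |nf a b (g p) - φ p| ≤ 5 * e := by
    intro p
    have h3 := hφ0 p
    rcases hcov' p with h | h | h
    · have h6 := hX0 p h
      rw [g0 p h]
      simp only [hf0]
      have h7 : nf a b (min (φ p) (b - e)) = min (φ p) (b - e) := by
        unfold nf
        rw [if_pos ((min_le_right _ _).trans (by linarith))]
      rw [h7, abs_le]
      rcases le_total (φ p) (b - e) with h8 | h8
      · rw [min_eq_left h8]; constructor <;> linarith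
      · rw [min_eq_right h8]; constructor <;> linarith
    · have h6 := hX1 p h
      rw [g1 p h]
      set c : ℝ := max (a + e) (min (φ p) (b - e)) with hc
      have h4 : c ≤ b - e := max_le (by linarith) (min_le_right _ _)
      have h5 : a + e ≤ c := le_max_left _ _
      have h7 : |c - φ p| ≤ e := by
        rw [abs_le, hc]
        rcases le_total (φ p) (b - e) with h8 | h8
        · rw [min_eq_left h8]
          rcases le_total (a + e) (φ p) with h9 | h9
          · rw [max_eq_right h9]; constructor <;> linarith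
          · rw [max_eq_left h9]; constructor <;> linarith
        · rw [min_eq_right h8, max_eq_right (by linarith)]; constructor <;> linarith
      have h8 : nf a b (2 * b - c) = c := by
        unfold nf
        rw [if_neg (by linarith), if_pos (by linarith)]
        ring
      have h9 := nf_lip hab (2 * (b - e) - c) (2 * b - c)
      rw [h8] at h9
      have h10 : |2 * (b - e) - c - (2 * b - c)| = 2 * e := by
        rw [show 2 * (b - e) - c - (2 * b - c) = -(2 * e) by ring, abs_neg,
          abs_of_pos (by positivity)]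
      rw [h10] at h9
      show |nf a b (2 * (b - e) - c) - φ p| ≤ 5 * e
      rw [abs_le] at h7 h9 ⊢
      constructor <;> linarith [h7.1, h7.2, h9.1, h9.2]
    · have h6 := hX2 p h
      rw [g2 p h]
      set m : ℝ := max (φ p) (a + e) with hm
      have h5 : a + e ≤ m := le_max_right _ _
      have h7 : |m - φ p| ≤ e := by
        rw [abs_le, hm]
        rcases le_total (φ p) (a + e) with h8 | h8
        · rw [max_eq_right h8]; constructor <;> linarith
        · rw [max_eq_left h8]; constructor <;> linarith
      have h8 : nf a b (2 * (b - a) + m) = m := by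
        unfold nf
        rw [if_neg (by linarith), if_neg (by linarith)]
        ring
      have h9 := nf_lip hab (2 * (b - a) - 4 * e + m) (2 * (b - a) + m)
      rw [h8] at h9
      have h10 : |2 * (b - a) - 4 * e + m - (2 * (b - a) + m)| = 4 * e := by
        rw [show 2 * (b - a) - 4 * e + m - (2 * (b - a) + m) = -(4 * e) by ring, abs_neg,
          abs_of_pos (by positivity)]
      rw [h10] at h9
      show |nf a b (2 * (b - a) - 4 * e + m) - φ p| ≤ 5 * e
      rw [abs_le] at h7 h9 ⊢
      constructor <;> linarith [h7.1, h7.2, h9.1, h9.2]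
  have hMpos : 0 < M := by linarith
  set r : ℝ := M / (M - 4 * e) with hrr
  have hr0 : 0 < r := div_pos hMpos hM0
  have hxX0 : x ∈ X0 := hA0 (show φ x ≤ a by rw [hx]; exact ha)
  have hgx : g x = 0 := by
    rw [g0 x hxX0]
    simp only [hf0, hx]
    exact min_eq_left (by linarith)
  have hgT : g pT = M - 4 * e := by
    have h3 : pT ∈ X2 := hB2 (show b ≤ φ pT by rw [hpT]; exact hb)
    rw [g2 pT h3]
    simp only [hf2, hpT]
    rw [max_eq_left (by linarith), hM]
    ring
  have hψc : Continuous (fun p => g p * r) := hgc.mul continuous_const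
  refine ⟨⟨fun p => g p * r, hψc⟩, ?_, ?_, ?_⟩
  · show g x * r = 0
    rw [hgx, zero_mul]
  · show range (fun p => g p * r) = Icc 0 M
    have hMr : (M - 4 * e) * r = M := by
      rw [hrr]; field_simp
    apply subset_antisymm
    · rintro _ ⟨p, rfl⟩
      have h3 := hrange p
      refine ⟨mul_nonneg h3.1 hr0.le, ?_⟩
      calc g p * r ≤ (M - 4 * e) * r := mul_le_mul_of_nonneg_right h3.2 hr0.le
        _ = M := hMr
    · have h3 : IsPreconnected (range (fun p => g p * r)) := isPreconnected_range hψc
      refine h3.Icc_subset ⟨x, ?_⟩ ⟨pT, ?_⟩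
      · show g x * r = 0
        rw [hgx, zero_mul]
      · show g pT * r = M
        rw [hgT, hMr]
  · intro p
    show |nf a b (g p * r) - φ p| ≤ ε
    have h3 := hrange p
    have h4 := hclose p
    have h5 := nf_lip hab (g p * r) (g p)
    have h6 : |g p * r - g p| ≤ 4 * e := by
      have h7 : g p * r - g p = g p * (4 * e) / (M - 4 * e) := by
        rw [hrr]; field_simp; ring
      rw [h7, abs_of_nonneg (div_nonneg (mul_nonneg h3.1 (by positivity)) hM0.le),
        div_le_iff₀ hM0]
      nlinarith [h3.2]
    have h8 := abs_le.1 (h5.trans h6)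
    have h9 := abs_le.1 h4
    rw [abs_le]
    constructor <;> linarith [h8.1, h8.2, h9.1, h9.2]

end Pool.Agent.H300.PH
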